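import Pool.Agent.Run7.h840.IfaceA

/-!
# Pieces A3 (two circles, rhombus cell) of the project of helper840 (MP_1cb9f1_lc)
-/

set_option autoImplicit false

namespace Run7.h114.UD

open Run7.h840 Complex

theorem nsq (z : ℂ) : ‖z‖ ^ 2 = z.re ^ 2 + z.im ^ 2 := by
  rw [Complex.sq_norm, Complex.normSq_apply]; ring

/-- The square of a number close to one. -/
theorem sq_near {r E : ℝ} (hE0 : 0 ≤ E) (hE : E ≤ 1 / 1000) (h : |r - 1| ≤ E) :
    1 - 2001 / 1000 * E ≤ r ^ 2 ∧ r ^ 2 ≤ 1 + 2001 / 1000 * E := by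
  rw [abs_le] at h
  obtain ⟨h1, h2⟩ := h
  constructor <;> nlinarith

theorem core {E H p1 q1 p2 q2 n1 n2 : ℝ} (hE0 : 0 ≤ E) (hE : E ≤ 1 / 1000)
    (hH1 : 81 / 400 ≤ H) (hH2 : H ≤ 81 / 100) (hp1 : |p1| ≤ 1001 / 1000 * E)
    (hp2 : |p2| ≤ 1001 / 1000 * E) (hn1 : |n1 + H - 1| ≤ 2001 / 1000 * E)
    (hn2 : |n2 + H - 1| ≤ 2001 / 1000 * E) (hq1 : p1 ^ 2 + q1 ^ 2 = n1 * H)
    (hq2 : p2 ^ 2 + q2 ^ 2 = n2 * H) :
    (p1 - p2) ^ 2 + (q1 - q2) ^ 2 ≤ 100 * E ^ 2 * H ∨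
      (p1 + p2) ^ 2 + (q1 + q2) ^ 2 ≤ 100 * E ^ 2 * H := by
  have hH : 0 < H := by linarith
  have s1 : p1 ^ 2 ≤ 101 / 100 * E ^ 2 := by
    have := sq_abs p1
    nlinarith [abs_nonneg p1]
  have s2 : p2 ^ 2 ≤ 101 / 100 * E ^ 2 := by
    have := sq_abs p2
    nlinarith [abs_nonneg p2]
  have hEE : E ^ 2 ≤ 5 / 1000 * (E * H) := by nlinarith
  rw [abs_le] at hn1 hn2
  have b1 : 185 / 1000 * H ≤ q1 ^ 2 := by nlinarith
  have b2 : 185 / 1000 * H ≤ q2 ^ 2 := by nlinarith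
  have hD : |q1 ^ 2 - q2 ^ 2| ≤ 402 / 100 * (E * H) := by
    rw [abs_le]
    constructor
    · have h1 : -(4002 / 1000 * E) * H ≤ (n1 - n2) * H :=
        mul_le_mul_of_nonneg_right (by linarith) hH.le
      nlinarith [sq_nonneg p1, sq_nonneg p2]
    · have h1 : (n1 - n2) * H ≤ (4002 / 1000 * E) * H :=
        mul_le_mul_of_nonneg_right (by linarith) hH.le
      nlinarith [sq_nonneg p1, sq_nonneg p2]
  have hD2 : (q1 ^ 2 - q2 ^ 2) ^ 2 ≤ 17 * (E ^ 2 * H) * H := by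
    rw [← sq_abs]
    have h0 : 0 ≤ E * H := by positivity
    nlinarith [abs_nonneg (q1 ^ 2 - q2 ^ 2)]
  have hpp : ∀ s : ℝ, (s = 1 ∨ s = -1) → (p1 + s * p2) ^ 2 ≤ 25 * (E ^ 2 * H) := by
    intro s hs
    have h1 : (p1 + s * p2) ^ 2 ≤ 2 * p1 ^ 2 + 2 * p2 ^ 2 := by
      rcases hs with rfl | rfl
      · nlinarith [sq_nonneg (p1 - p2)]
      · nlinarith [sq_nonneg (p1 + p2)]
    have h2 : E ^ 2 ≤ 5 * (E ^ 2 * H) := by
      have : 0 ≤ E ^ 2 := sq_nonneg E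
      nlinarith
    nlinarith
  have h17 : (q1 ^ 2 - q2 ^ 2) ^ 2 = (q1 - q2) ^ 2 * (q1 + q2) ^ 2 := by ring
  have hEH : 0 ≤ E ^ 2 * H := by positivity
  rcases le_total 0 (q1 * q2) with hs | hs
  · left
    have h1 : 37 / 100 * H ≤ (q1 + q2) ^ 2 := by nlinarith
    have h2 : (q1 - q2) ^ 2 * (37 / 100 * H) ≤ 17 * (E ^ 2 * H) * H := by
      rw [h17] at hD2
      exact (mul_le_mul_of_nonneg_left h1 (sq_nonneg _)).trans hD2
    have h3 : (q1 - q2) ^ 2 ≤ 50 * (E ^ 2 * H) := by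
      by_contra hcon
      rw [not_le] at hcon
      nlinarith [mul_pos (sub_pos.2 hcon) hH]
    have h4 := hpp (-1) (Or.inr rfl)
    have h5 : (p1 - p2) ^ 2 = (p1 + -1 * p2) ^ 2 := by ring
    rw [h5]
    nlinarith
  · right
    have h1 : 37 / 100 * H ≤ (q1 - q2) ^ 2 := by nlinarith
    have h2 : (q1 + q2) ^ 2 * (37 / 100 * H) ≤ 17 * (E ^ 2 * H) * H := by
      rw [h17, mul_comm ((q1 - q2) ^ 2)] at hD2
      exact (mul_le_mul_of_nonneg_left h1 (sq_nonneg _)).trans hD2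
    have h3 : (q1 + q2) ^ 2 ≤ 50 * (E ^ 2 * H) := by
      by_contra hcon
      rw [not_le] at hcon
      nlinarith [mul_pos (sub_pos.2 hcon) hH]
    have h4 := hpp 1 (Or.inl rfl)
    have h5 : (p1 + p2) ^ 2 = (p1 + 1 * p2) ^ 2 := by ring
    rw [h5]
    nlinarith

/-- The data of a point at distance almost one from `a` and `b`. -/
theorem point_data {E : ℝ} (hE0 : 0 ≤ E) (hE : E ≤ 1 / 1000) (a b x : ℂ)
    (hxa : |‖x - a‖ - 1| ≤ E) (hxb : |‖x - b‖ - 1| ≤ E) :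
    |dt (x - (a + b) / 2) ((a - b) / 2)| ≤ 1001 / 1000 * E ∧
      |‖x - (a + b) / 2‖ ^ 2 + ‖(a - b) / 2‖ ^ 2 - 1| ≤ 2001 / 1000 * E ∧
      dt (x - (a + b) / 2) ((a - b) / 2) ^ 2 + cr (x - (a + b) / 2) ((a - b) / 2) ^ 2 =
        ‖x - (a + b) / 2‖ ^ 2 * ‖(a - b) / 2‖ ^ 2 := by
  obtain ⟨h1, h2⟩ := sq_near hE0 hE hxa
  obtain ⟨h3, h4⟩ := sq_near hE0 hE hxb
  have e1 : ‖x - a‖ ^ 2 = ‖x - (a + b) / 2‖ ^ 2 - 2 * dt (x - (a + b) / 2) ((a - b) / 2) +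
      ‖(a - b) / 2‖ ^ 2 := by
    rw [nsq, nsq, nsq]
    simp only [dt, Complex.sub_re, Complex.sub_im, Complex.div_ofNat_re, Complex.div_ofNat_im,
      Complex.add_re, Complex.add_im]
    ring
  have e2 : ‖x - b‖ ^ 2 = ‖x - (a + b) / 2‖ ^ 2 + 2 * dt (x - (a + b) / 2) ((a - b) / 2) +
      ‖(a - b) / 2‖ ^ 2 := by
    rw [nsq, nsq, nsq]
    simp only [dt, Complex.sub_re, Complex.sub_im, Complex.div_ofNat_re, Complex.div_ofNat_im,
      Complex.add_re, Complex.add_im]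
    ring
  rw [e1] at h1 h2
  rw [e2] at h3 h4
  refine ⟨?_, ?_, ?_⟩
  · rw [abs_le]; constructor <;> linarith
  · rw [abs_le]; constructor <;> linarith
  · rw [nsq, nsq]; simp only [dt, cr]; ring

theorem twocircle : S_twocircle := by
  intro E hE0 hE a b x y h1 h2 hxa hxb hya hyb
  obtain ⟨p1, n1, q1⟩ := point_data hE0 hE a b x hxa hxb
  obtain ⟨p2, n2, q2⟩ := point_data hE0 hE a b y hya hyb
  have hH : ‖(a - b) / 2‖ ^ 2 = ‖a - b‖ ^ 2 / 4 := by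
    rw [norm_div]; norm_num; ring
  have hH1 : 81 / 400 ≤ ‖(a - b) / 2‖ ^ 2 := by rw [hH]; nlinarith
  have hH2 : ‖(a - b) / 2‖ ^ 2 ≤ 81 / 100 := by rw [hH]; nlinarith [norm_nonneg (a - b)]
  have hH0 : 0 < ‖(a - b) / 2‖ ^ 2 := by linarith
  rcases core hE0 hE hH1 hH2 p1 p2 n1 n2 q1 q2 with h | h
  · left
    have e : (dt (x - (a + b) / 2) ((a - b) / 2) - dt (y - (a + b) / 2) ((a - b) / 2)) ^ 2 +
        (cr (x - (a + b) / 2) ((a - b) / 2) - cr (y - (a + b) / 2) ((a - b) / 2)) ^ 2 =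
        ‖x - y‖ ^ 2 * ‖(a - b) / 2‖ ^ 2 := by
      rw [nsq, nsq]
      simp only [dt, cr, Complex.sub_re, Complex.sub_im, Complex.div_ofNat_re,
        Complex.div_ofNat_im, Complex.add_re, Complex.add_im]
      ring
    rw [e] at h
    have h3 := le_of_mul_le_mul_right h hH0
    refine abs_le_of_sq_le_sq' ?_ (by positivity) |>.2
    nlinarith
  · right
    have e : (dt (x - (a + b) / 2) ((a - b) / 2) + dt (y - (a + b) / 2) ((a - b) / 2)) ^ 2 +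
        (cr (x - (a + b) / 2) ((a - b) / 2) + cr (y - (a + b) / 2) ((a - b) / 2)) ^ 2 =
        ‖x + y - a - b‖ ^ 2 * ‖(a - b) / 2‖ ^ 2 := by
      rw [nsq, nsq]
      simp only [dt, cr, Complex.sub_re, Complex.sub_im, Complex.div_ofNat_re,
        Complex.div_ofNat_im, Complex.add_re, Complex.add_im]
      ring
    rw [e] at h
    have h3 := le_of_mul_le_mul_right h hH0
    refine abs_le_of_sq_le_sq' ?_ (by positivity) |>.2
    nlinarith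

theorem cell : S_cell := by
  intro E hE0 hE a b c x hab hxc hac hbc hxa hxb
  have hca : |‖c - a‖ - 1| ≤ E := by rw [norm_sub_rev]; exact hac
  have hcb : |‖c - b‖ - 1| ≤ E := by rw [norm_sub_rev]; exact hbc
  have h2 : ‖a - b‖ ≤ 9 / 5 := by
    by_contra hcon
    rw [not_le] at hcon
    obtain ⟨-, n1, -⟩ := point_data hE0 hE a b x hxa hxb
    obtain ⟨-, n2, -⟩ := point_data hE0 hE a b c hca hcb
    have hH : ‖(a - b) / 2‖ ^ 2 = ‖a - b‖ ^ 2 / 4 := by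
      rw [norm_div]; norm_num; ring
    rw [hH, abs_le] at n1 n2
    have h3 : ‖x - c‖ ^ 2 ≤ 2 * ‖x - (a + b) / 2‖ ^ 2 + 2 * ‖c - (a + b) / 2‖ ^ 2 := by
      have h4 : ‖x - c‖ ≤ ‖x - (a + b) / 2‖ + ‖c - (a + b) / 2‖ := by
        have : x - c = (x - (a + b) / 2) - (c - (a + b) / 2) := by ring
        rw [this]
        exact norm_sub_le _ _
      nlinarith [norm_nonneg (x - c), sq_nonneg (‖x - (a + b) / 2‖ - ‖c - (a + b) / 2‖)]
    have h5 : 1 < ‖x - c‖ ^ 2 := by nlinarith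
    nlinarith
  rcases twocircle E hE0 hE a b x c (by linarith) h2 hxa hxb hca hcb with h | h
  · exfalso
    linarith
  · have e : x - (a + b - c) = x + c - a - b := by ring
    rw [e]
    exact h

end Run7.h114.UD
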