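import Pool.Agent.Run7.h114.UD.A3

/-!
# Piece A6 (direction) of the project of helper840 (MP_1cb9f1_lc)
-/

set_option autoImplicit false

namespace Run7.h114.UD

open Run7.h840 Complex

theorem sq_le_num {x a : ℝ} (h1 : -a ≤ x) (h2 : x ≤ a) : x ^ 2 ≤ a ^ 2 := sq_le_sq' h1 h2

theorem low_of_sq {x a : ℝ} (hx : 0 ≤ x) (ha : 0 ≤ a) (h : a ^ 2 ≤ x ^ 2) : a ≤ x :=
  (pow_le_pow_iff_left₀ ha hx two_ne_zero).1 h

theorem mul_low {a b p q : ℝ} (hp : 0 ≤ p) (hq : 0 ≤ q) (ha : p ≤ a) (hb : q ≤ b) :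
    p * q ≤ a * b := mul_le_mul ha hb hq (hp.trans ha)

theorem dirA' {n g u w α β γ δ : ℝ} (hc1 : 997 / 1000 ≤ n)
    (hc2 : n ≤ 10021 / 10000) (hg1 : 997 / 1000 ≤ g)
    (hg2 : g ≤ 10021 / 10000) (h1 : 1 < n + g + 2 * γ)
    (h2 : 98 / 100 < n + g - 2 * γ) (ha : 1 < u - 2 * α + n)
    (hag : w ≤ 1) (hu1 : 81 / 100 ≤ u)
    (hu2 : u ≤ 121 / 100) (i1 : γ ^ 2 + δ ^ 2 = n * g) (i2 : α ^ 2 + β ^ 2 = n * u)
    (i3 : (α - n - γ) ^ 2 + (β - δ) ^ 2 = n * w) :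
    73 / 100 ≤ δ ^ 2 ∧ (0 < δ → 66 / 100 ≤ β) ∧ (δ < 0 → β ≤ -(66 / 100)) := by
  have b1 : -(5122 / 10000) ≤ γ := by linarith
  have b2 : γ ≤ 5122 / 10000 := by linarith
  have b3 : α ≤ 6061 / 10000 := by linarith
  have hnw : n * w ≤ 10021 / 10000 := by
    calc n * w ≤ n * 1 := mul_le_mul_of_nonneg_left hag (by linarith)
      _ ≤ _ := by linarith
  have hγ2 := sq_le_num b1 b2
  have hng := mul_low (by norm_num) (by norm_num) hc1 hg1
  have hδ2 : 73 / 100 ≤ δ ^ 2 := by norm_num at hγ2 hng; linarith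
  have s1 := sq_nonneg (β - δ)
  have s2 := sq_nonneg (α - n - γ)
  have hnα := abs_le_of_sq_le_sq' (show (α - n - γ) ^ 2 ≤ (1002 / 1000) ^ 2 by norm_num; linarith)
    (by norm_num)
  have hα1 : -(6061 / 10000) ≤ α := by linarith [hnα.1]
  have hα2 := sq_le_num hα1 b3
  have hnu := mul_low (by norm_num) (by norm_num) hc1 hu1
  have hβ2 : 44 / 100 ≤ β ^ 2 := by norm_num at hα2 hnu; linarith
  have hbd := abs_le_of_sq_le_sq' (show (β - δ) ^ 2 ≤ (1002 / 1000) ^ 2 by norm_num; linarith)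
    (by norm_num)
  refine ⟨hδ2, fun h => ?_, fun h => ?_⟩
  · have h3 : 85 / 100 ≤ δ := low_of_sq h.le (by norm_num) (by norm_num; linarith)
    have h4 : -(16 / 100) ≤ β := by linarith [hbd.1]
    have h5 : 0 ≤ β := by
      by_contra hcon
      rw [not_le] at hcon
      have := sq_le_num h4 (by linarith : β ≤ 16 / 100)
      norm_num at this
      linarith
    exact low_of_sq h5 (by norm_num) (by norm_num; linarith)
  · have h3 : 85 / 100 ≤ -δ := low_of_sq (by linarith) (by norm_num) (by rw [neg_sq]; norm_num; linarith)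
    have h4 : β ≤ 16 / 100 := by linarith [hbd.2]
    have h5 : 0 ≤ -β := by
      by_contra hcon
      rw [not_le] at hcon
      have := sq_le_num (by linarith : -(16 / 100) ≤ β) h4
      norm_num at this
      linarith
    have h6 : 66 / 100 ≤ -β := low_of_sq h5 (by norm_num) (by rw [neg_sq]; norm_num; linarith)
    linarith

/-- The position of `a` relative to `c` and `g`. -/
theorem dirA {c1 c2 g1 g2 a1 a2 : ℝ} (hc1 : 997 / 1000 ≤ c1 ^ 2 + c2 ^ 2)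
    (hc2 : c1 ^ 2 + c2 ^ 2 ≤ 10021 / 10000) (hg1 : 997 / 1000 ≤ g1 ^ 2 + g2 ^ 2)
    (hg2 : g1 ^ 2 + g2 ^ 2 ≤ 10021 / 10000) (h1 : 1 < (c1 + g1) ^ 2 + (c2 + g2) ^ 2)
    (h2 : 98 / 100 < (c1 - g1) ^ 2 + (c2 - g2) ^ 2) (ha : 1 < a1 ^ 2 + a2 ^ 2)
    (hag : (a1 - g1) ^ 2 + (a2 - g2) ^ 2 ≤ 1) (hu1 : 81 / 100 ≤ (a1 + c1) ^ 2 + (a2 + c2) ^ 2)
    (hu2 : (a1 + c1) ^ 2 + (a2 + c2) ^ 2 ≤ 121 / 100) :
    73 / 100 ≤ (c1 * g2 - c2 * g1) ^ 2 ∧
      (0 < c1 * g2 - c2 * g1 → 66 / 100 ≤ c1 * a2 - c2 * a1) ∧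
      (c1 * g2 - c2 * g1 < 0 → c1 * a2 - c2 * a1 ≤ -(66 / 100)) :=
  dirA' (n := c1 ^ 2 + c2 ^ 2) (g := g1 ^ 2 + g2 ^ 2) (u := (a1 + c1) ^ 2 + (a2 + c2) ^ 2)
    (w := (a1 - g1) ^ 2 + (a2 - g2) ^ 2) (α := c1 * (a1 + c1) + c2 * (a2 + c2))
    (γ := c1 * g1 + c2 * g2) hc1 hc2 hg1 hg2 (by linarith) (by linarith) (by linarith) hag hu1 hu2
    (by ring) (by ring) (by ring)

/-- The final estimate. -/
theorem dirB' {E S1 S2 D M L am md xa xd ad : ℝ} (hE : E ≤ 1 / 1000)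
    (hc1 : |S1 - 1| ≤ 2001 / 1000 * E) (he1 : |S2 - 1| ≤ 2001 / 1000 * E)
    (hD0 : 0 ≤ D) (hD1 : D ≤ 1) (hED : 100 * E ≤ D) (hM0 : 0 ≤ M)
    (j1 : S1 + S2 = 2 * M ^ 2 + D ^ 2 / 2)
    (hL0 : 0 ≤ L) (hL1 : L ≤ 201 / 100) (hx : 66 / 100 ≤ |xa|)
    (k1 : M ^ 2 * ad = am * md + xa * xd) (k2 : 2 * md = S2 - S1)
    (k3 : md ^ 2 + xd ^ 2 = M ^ 2 * D ^ 2) (k4 : am ^ 2 + xa ^ 2 = L ^ 2 * M ^ 2) :
    D / 2 ≤ |(S1 - S2) - 2 * ad| := by
  rw [abs_le] at hc1 he1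
  have hDD : D ^ 2 ≤ 1 := pow_le_one₀ hD0 hD1
  have hM1 : (86 / 100) ^ 2 ≤ M ^ 2 := by norm_num; linarith
  have hMlow : 86 / 100 ≤ M := low_of_sq hM0 (by norm_num) hM1
  have hM2 : M ≤ 1002 / 1000 := by
    refine low_of_sq (by norm_num) hM0 ?_
    have := sq_nonneg D
    norm_num
    linarith
  have hmdb : |md| ≤ 2001 / 1000 * E := by
    rw [abs_le]; constructor <;> linarith
  have hE0 : 0 ≤ 2001 / 1000 * E := (abs_nonneg _).trans hmdb
  have hamb : |am| ≤ 202 / 100 := by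
    have h2 : L * M ≤ 201 / 100 * (1002 / 1000) := mul_le_mul hL1 hM2 hM0 (by norm_num)
    have h3 : 0 ≤ L * M := mul_nonneg hL0 hM0
    have h4 := pow_le_pow_left₀ h3 h2 2
    have h5 := sq_nonneg xa
    refine abs_le_of_sq_le_sq ?_ (by norm_num)
    have h6 : (L * M) ^ 2 = L ^ 2 * M ^ 2 := by ring
    rw [h6] at h4
    norm_num at h4 ⊢
    linarith
  have hMD : 0 ≤ M * D := mul_nonneg hM0 hD0
  have hxdb : M * D - 2001 / 1000 * E ≤ |xd| := by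
    have h1 : 0 ≤ |xd| := abs_nonneg _
    have h2 : 0 ≤ |md| := abs_nonneg _
    have h3 : |md| ^ 2 + |xd| ^ 2 = (M * D) ^ 2 := by rw [sq_abs, sq_abs, k3]; ring
    have h4 : (M * D) ^ 2 ≤ (|md| + |xd|) ^ 2 := by
      rw [← h3]
      have := mul_nonneg h2 h1
      nlinarith only [this]
    have h5 := low_of_sq (add_nonneg h2 h1) hMD h4
    linarith
  have hadb : 66 / 100 * (M * D) - 6 * E ≤ M ^ 2 * |ad| := by
    have h1 : |M ^ 2 * ad| = M ^ 2 * |ad| := by rw [abs_mul, abs_of_nonneg (sq_nonneg M)]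
    rw [← h1, k1]
    have h2 : |xa * xd| - |am * md| ≤ |am * md + xa * xd| := by
      have := abs_sub_abs_le_abs_sub (xa * xd) (-(am * md))
      rw [abs_neg] at this
      refine this.trans (le_of_eq ?_)
      congr 1; ring
    have h3 : |am * md| ≤ 202 / 100 * (2001 / 1000 * E) := by
      rw [abs_mul]
      exact mul_le_mul hamb hmdb (abs_nonneg _) (by norm_num)
    have h4 : 66 / 100 * (M * D - 2001 / 1000 * E) ≤ |xa * xd| := by
      rw [abs_mul]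
      have h5 : 66 / 100 * (M * D - 2001 / 1000 * E) ≤ 66 / 100 * |xd| := by linarith
      exact h5.trans (mul_le_mul_of_nonneg_right hx (abs_nonneg _))
    linarith
  have hfin : 53 / 100 * D ≤ |ad| := by
    by_contra hcon
    rw [not_le] at hcon
    have hMp : 0 < M := by linarith
    have h1 : M ^ 2 * |ad| < M ^ 2 * (53 / 100 * D) :=
      mul_lt_mul_of_pos_left hcon (by positivity)
    have h2 : M ^ 2 * (53 / 100 * D) ≤ M * (532 / 1000 * D) := by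
      have h3 : M * (53 / 100 * D) ≤ 532 / 1000 * D := by
        have := mul_le_mul_of_nonneg_right hM2 hD0
        nlinarith only [this, hD0]
      calc M ^ 2 * (53 / 100 * D) = M * (M * (53 / 100 * D)) := by ring
        _ ≤ M * (532 / 1000 * D) := mul_le_mul_of_nonneg_left h3 hM0
    have h4 : 86 / 100 * D ≤ M * D := mul_le_mul_of_nonneg_right hMlow hD0
    nlinarith only [h1, h2, h4, hadb, hED, hD0]
  have h6 : |2 * ad| - |S1 - S2| ≤ |(S1 - S2) - 2 * ad| := by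
    rw [abs_sub_comm (S1 - S2) (2 * ad)]
    exact abs_sub_abs_le_abs_sub _ _
  have h7 : |S1 - S2| ≤ 4002 / 1000 * E := by
    rw [abs_le]; constructor <;> linarith
  have h8 : |2 * ad| = 2 * |ad| := by rw [abs_mul, abs_of_pos (by norm_num : (0:ℝ) < 2)]
  rw [h8] at h6
  linarith

theorem dirB {E c1 c2 e1 e2 a1 a2 D M L : ℝ} (hE : E ≤ 1 / 1000)
    (hc1 : |c1 ^ 2 + c2 ^ 2 - 1| ≤ 2001 / 1000 * E) (he1 : |e1 ^ 2 + e2 ^ 2 - 1| ≤ 2001 / 1000 * E)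
    (hD0 : 0 ≤ D) (hD : D ^ 2 = (e1 - c1) ^ 2 + (e2 - c2) ^ 2) (hD1 : D ≤ 1)
    (hED : 100 * E ≤ D) (hM0 : 0 ≤ M)
    (hM : M ^ 2 = ((c1 + e1) / 2) ^ 2 + ((c2 + e2) / 2) ^ 2)
    (hL0 : 0 ≤ L) (hL : L ^ 2 = a1 ^ 2 + a2 ^ 2) (hL1 : L ≤ 201 / 100)
    (hx : 66 / 100 ≤ |((c1 + e1) / 2) * a2 - ((c2 + e2) / 2) * a1|) :
    D / 2 ≤ |((a1 + c1) ^ 2 + (a2 + c2) ^ 2) - ((a1 + e1) ^ 2 + (a2 + e2) ^ 2)| := by
  have key := dirB' (S1 := c1 ^ 2 + c2 ^ 2) (S2 := e1 ^ 2 + e2 ^ 2)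
    (am := a1 * ((c1 + e1) / 2) + a2 * ((c2 + e2) / 2))
    (md := ((c1 + e1) / 2) * (e1 - c1) + ((c2 + e2) / 2) * (e2 - c2))
    (xd := ((c1 + e1) / 2) * (e2 - c2) - ((c2 + e2) / 2) * (e1 - c1))
    (ad := a1 * (e1 - c1) + a2 * (e2 - c2)) hE hc1 he1 hD0 hD1 hED hM0
    (by rw [hM, hD]; ring) hL0 hL1 hx (by rw [hM]; ring) (by ring) (by rw [hM, hD]; ring)
    (by rw [hM, hL]; ring)
  refine key.trans (le_of_eq ?_)
  congr 1
  ring

theorem dir : S_dir := by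
  intro E hE0 hE h z z' Q A hz hz' hQ hzQ hzQ' hd hd' hAh hAQ hu1 hu2 hu1' hu2' hzz hEz
  obtain ⟨n1, n2⟩ := sq_near hE0 hE hz
  obtain ⟨n1', n2'⟩ := sq_near hE0 hE hz'
  obtain ⟨g1, g2⟩ := sq_near hE0 hE hQ
  have sq_lt' : ∀ {r s : ℝ}, 0 ≤ r → r < s → r ^ 2 < s ^ 2 := fun h0 h1 =>
    pow_lt_pow_left₀ h1 h0 two_ne_zero
  have sq_le' : ∀ {r s : ℝ}, 0 ≤ r → r ≤ s → r ^ 2 ≤ s ^ 2 := fun h0 h1 =>
    pow_le_pow_left₀ h0 h1 2
  have a1 := sq_lt' (by norm_num) hAh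
  have a2 := sq_le' (norm_nonneg _) hAQ
  have c1 := sq_lt' (by norm_num) hzQ
  have c1' := sq_lt' (by norm_num) hzQ'
  have c2 := sq_lt' (by norm_num) hd
  have c2' := sq_lt' (by norm_num) hd'
  have u1 := sq_le' (by norm_num) hu1
  have u2 := sq_le' (norm_nonneg _) hu2
  have u1' := sq_le' (by norm_num) hu1'
  have u2' := sq_le' (norm_nonneg _) hu2'
  have L1 : ‖A - h‖ ≤ 201 / 100 := by
    have h1 : A - h = (A - Q) + (Q - h) := by ring
    rw [h1]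
    refine (norm_add_le _ _).trans ?_
    rw [abs_le] at hQ
    linarith [hQ.2]
  have M0 := norm_nonneg ((h - z) / 2 + (h - z') / 2)
  have hMsq := nsq ((h - z) / 2 + (h - z') / 2)
  have hDsq := nsq (z - z')
  have hLsq := nsq (A - h)
  rw [nsq] at n1 n2 n1' n2' g1 g2 a1 a2 c1 c1' c2 c2' u1 u2 u1' u2'
  simp only [Complex.sub_re, Complex.sub_im, Complex.div_ofNat_re, Complex.div_ofNat_im,
      Complex.add_re, Complex.add_im] at n1 n2 n1' n2' g1 g2 a1 a2 c1 c1' c2 c2' u1 u2 u1' u2' hMsq hDsq hLsq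
  have A1 := dirA (c1 := h.re - z.re) (c2 := h.im - z.im) (g1 := Q.re - h.re) (g2 := Q.im - h.im)
    (a1 := A.re - h.re) (a2 := A.im - h.im) (by linarith) (by linarith) (by linarith)
    (by linarith) (by linarith) (by linarith) (by linarith) (by linarith) (by linarith)
    (by linarith)
  have A2 := dirA (c1 := h.re - z'.re) (c2 := h.im - z'.im) (g1 := Q.re - h.re)
    (g2 := Q.im - h.im)
    (a1 := A.re - h.re) (a2 := A.im - h.im) (by linarith) (by linarith) (by linarith)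
    (by linarith) (by linarith) (by linarith) (by linarith) (by linarith) (by linarith)
    (by linarith)
  obtain ⟨s1, p1, m1⟩ := A1
  obtain ⟨s2, p2, m2⟩ := A2
  -- the signs agree
  have hsame : ((h.re - z.re) * (Q.im - h.im) - (h.im - z.im) * (Q.re - h.re) -
      ((h.re - z'.re) * (Q.im - h.im) - (h.im - z'.im) * (Q.re - h.re))) ^ 2 ≤ 1003 / 1000 := by
    have e : ((h.re - z.re) * (Q.im - h.im) - (h.im - z.im) * (Q.re - h.re) -
      ((h.re - z'.re) * (Q.im - h.im) - (h.im - z'.im) * (Q.re - h.re))) ^ 2 +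
      ((z.re - z'.re) * (Q.re - h.re) + (z.im - z'.im) * (Q.im - h.im)) ^ 2 =
      ((z.re - z'.re) ^ 2 + (z.im - z'.im) ^ 2) * ((Q.re - h.re) ^ 2 + (Q.im - h.im) ^ 2) := by
      ring
    have e2 : (z.re - z'.re) ^ 2 + (z.im - z'.im) ^ 2 ≤ 1 := by
      rw [← hDsq]
      exact pow_le_one₀ (norm_nonneg _) hzz
    have e3 : ((z.re - z'.re) ^ 2 + (z.im - z'.im) ^ 2) *
        ((Q.re - h.re) ^ 2 + (Q.im - h.im) ^ 2) ≤ 1 * (1003 / 1000) :=
      mul_le_mul e2 (by linarith) (by positivity) (by norm_num)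
    have e4 := sq_nonneg ((z.re - z'.re) * (Q.re - h.re) + (z.im - z'.im) * (Q.im - h.im))
    linarith
  obtain ⟨δ, hδ⟩ : ∃ δ, δ = (h.re - z.re) * (Q.im - h.im) - (h.im - z.im) * (Q.re - h.re) :=
    ⟨_, rfl⟩
  obtain ⟨δ', hδ'⟩ : ∃ δ, δ = (h.re - z'.re) * (Q.im - h.im) - (h.im - z'.im) * (Q.re - h.re) :=
    ⟨_, rfl⟩
  rw [← hδ] at s1 p1 m1 hsame
  rw [← hδ'] at s2 p2 m2 hsame
  have hx : 66 / 100 ≤ |(((h.re - z.re) + (h.re - z'.re)) / 2) * (A.im - h.im) -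
      (((h.im - z.im) + (h.im - z'.im)) / 2) * (A.re - h.re)| := by
    rcases lt_trichotomy δ 0 with hs | hs | hs
    · have hs' : δ' < 0 := by
        by_contra hcon
        rw [not_lt] at hcon
        have : 0 ≤ -δ * δ' := mul_nonneg (by linarith) hcon
        nlinarith only [this, s1, s2, hsame]
      have q1 := m1 hs
      have q2 := m2 hs'
      rw [le_abs]
      right
      linarith
    · rw [hs] at s1
      norm_num at s1
    · have hs' : 0 < δ' := by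
        by_contra hcon
        rw [not_lt] at hcon
        have : 0 ≤ δ * -δ' := mul_nonneg hs.le (by linarith)
        nlinarith only [this, s1, s2, hsame]
      have q1 := p1 hs
      have q2 := p2 hs'
      rw [le_abs]
      left
      linarith
  have key := dirB (E := E) (c1 := h.re - z.re) (c2 := h.im - z.im) (e1 := h.re - z'.re)
    (e2 := h.im - z'.im) (a1 := A.re - h.re) (a2 := A.im - h.im) (D := ‖z - z'‖)
    (M := ‖(h - z) / 2 + (h - z') / 2‖) (L := ‖A - h‖) hE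
    (by rw [abs_le]; constructor <;> linarith) (by rw [abs_le]; constructor <;> linarith)
    (norm_nonneg _) (by rw [hDsq]; ring) hzz hEz M0 (by rw [hMsq]; ring) (norm_nonneg _)
    (by rw [hLsq]) L1 hx
  refine key.trans (le_of_eq ?_)
  rw [nsq, nsq]
  simp only [Complex.sub_re, Complex.sub_im]
  congr 1
  ring

end Run7.h114.UD
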