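import Pool.Agent.Run7.h114.UD.C5c

/-!
# Piece C5b: designated pairs with `bd`, `kd`
-/

namespace Run7.h114.UD

open Run7.h840 Complex

/-! ### nominal steps -/

lemma NX_step (i : ℕ) : vs (NX (i + 1)) (NX i) = vm S2 (stX i) := by
  obtain ⟨p, r, hr, rfl⟩ : ∃ p r, r < 4 ∧ i = 4 * p + r := ⟨i / 4, i % 4, by omega, by omega⟩
  have e1 : (4 * p + r) / 4 = p := by omega
  have e2 : (4 * p + r) % 4 = r := by omega
  rw [NX, NX, stX, e1, e2]
  interval_cases r
  · have e3 : (4 * p + 0 + 1) / 4 = p := by omega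
    have e4 : (4 * p + 0 + 1) % 4 = 1 := by omega
    rw [e3, e4]
    simp only [vs, vm, va, Xo, Prod.mk.injEq]
    constructor <;> ring
  · have e3 : (4 * p + 1 + 1) / 4 = p := by omega
    have e4 : (4 * p + 1 + 1) % 4 = 2 := by omega
    rw [e3, e4]
    simp only [vs, vm, va, Xo, Prod.mk.injEq]
    constructor <;> ring
  · have e3 : (4 * p + 2 + 1) / 4 = p := by omega
    have e4 : (4 * p + 2 + 1) % 4 = 3 := by omega
    rw [e3, e4]
    simp only [vs, vm, va, Xo, Prod.mk.injEq]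
    constructor <;> ring
  · have e3 : (4 * p + 3 + 1) / 4 = p + 1 := by omega
    have e4 : (4 * p + 3 + 1) % 4 = 0 := by omega
    rw [e3, e4]
    simp only [vs, vm, va, Xo, Prod.mk.injEq, Pc, Nat.cast_add, Nat.cast_one]
    constructor <;> ring

lemma NY_step (l : ℕ) : vs (NY (l + 1)) (NY l) = vm S2 (stY l) := by
  obtain ⟨p, r, hr, rfl⟩ : ∃ p r, r < 8 ∧ l = 8 * p + r := ⟨l / 8, l % 8, by omega, by omega⟩
  have e1 : (8 * p + r) / 8 = p := by omega
  have e2 : (8 * p + r) % 8 = r := by omega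
  rw [NY, NY, stY, e1, e2]
  interval_cases r
  · have e3 : (8 * p + 0 + 1) / 8 = p := by omega
    have e4 : (8 * p + 0 + 1) % 8 = 1 := by omega
    rw [e3, e4]
    simp only [vs, vm, va, vn, Yo, Prod.mk.injEq]
    constructor <;> ring
  · have e3 : (8 * p + 1 + 1) / 8 = p := by omega
    have e4 : (8 * p + 1 + 1) % 8 = 2 := by omega
    rw [e3, e4]
    simp only [vs, vm, va, vn, Yo, Prod.mk.injEq]
    constructor <;> ring
  · have e3 : (8 * p + 2 + 1) / 8 = p := by omega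
    have e4 : (8 * p + 2 + 1) % 8 = 3 := by omega
    rw [e3, e4]
    simp only [vs, vm, va, vn, Yo, Prod.mk.injEq]
    constructor <;> ring
  · have e3 : (8 * p + 3 + 1) / 8 = p := by omega
    have e4 : (8 * p + 3 + 1) % 8 = 4 := by omega
    rw [e3, e4]
    simp only [vs, vm, va, vn, Yo, Prod.mk.injEq]
    constructor <;> ring
  · have e3 : (8 * p + 4 + 1) / 8 = p := by omega
    have e4 : (8 * p + 4 + 1) % 8 = 5 := by omega
    rw [e3, e4]
    simp only [vs, vm, va, vn, Yo, Prod.mk.injEq]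
    constructor <;> ring
  · have e3 : (8 * p + 5 + 1) / 8 = p := by omega
    have e4 : (8 * p + 5 + 1) % 8 = 6 := by omega
    rw [e3, e4]
    simp only [vs, vm, va, vn, Yo, Prod.mk.injEq]
    constructor <;> ring
  · have e3 : (8 * p + 6 + 1) / 8 = p := by omega
    have e4 : (8 * p + 6 + 1) % 8 = 7 := by omega
    rw [e3, e4]
    simp only [vs, vm, va, vn, Yo, Prod.mk.injEq]
    constructor <;> ring
  · have e3 : (8 * p + 7 + 1) / 8 = p + 1 := by omega
    have e4 : (8 * p + 7 + 1) % 8 = 0 := by omega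
    rw [e3, e4]
    simp only [vs, vm, va, vn, Yo, Prod.mk.injEq, Pr, Nat.cast_add, Nat.cast_one]
    constructor <;> ring

lemma stX_mod (i : ℕ) : stX i = stX (i % 4) := by
  rw [stX, stX, Nat.mod_mod]

lemma stY_mod (l : ℕ) : stY l = stY (l % 8) := by
  rw [stY, stY, Nat.mod_mod]

lemma cu_vn (a : V2) : cu (vn a) = -cu a := by
  apply Complex.ext <;> simp [cu, vn] <;> ring

section steps
variable {σ : ℕ → ℕ → Bool} {mB nL : ℕ} {q : Par} (hq : Cfg σ mB nL q)
include hq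

lemma Xstep (i : ℕ) : ‖(q.X i - q.X (i + 1)) - cu (vn (stX i))‖ ≤ 2 / 10 ^ 6 := by
  have h1 := hq.Xc i
  have h2 := hq.Xc (i + 1)
  have : (q.X i - q.X (i + 1)) - cu (vn (stX i)) =
      (q.X i - cS (NX i)) - (q.X (i + 1) - cS (NX (i + 1))) := by
    rw [cu_vn, ← cS_S2, ← NX_step i, ← cS_sub]; ring
  rw [this]
  refine (norm_sub_le _ _).trans ?_
  linarith

lemma Ystep (l : ℕ) : ‖(q.Y (l + 1) - q.Y l) - cu (stY l)‖ ≤ 2 / 10 ^ 6 := by
  have h1 := hq.Yc l
  have h2 := hq.Yc (l + 1)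
  have : (q.Y (l + 1) - q.Y l) - cu (stY l) =
      (q.Y (l + 1) - cS (NY (l + 1))) - (q.Y l - cS (NY l)) := by
    rw [← cS_S2, ← NY_step l, ← cS_sub]; ring
  rw [this]
  refine (norm_sub_le _ _).trans ?_
  linarith

lemma Xn (i : ℕ) : ‖q.X i - q.X (i + 1)‖ = 1 := by rw [norm_sub_rev]; exact hq.Xu i

end steps

/-! ### tables -/

/-- the sign of an integer dot product, with a gap for the real one -/
def Tab (n : ℤ) (x : ℝ) : Prop :=
  (decide (0 < n) = true → 1 / 40 ≤ x) ∧ (decide (0 < n) = false → x ≤ -(1 / 40))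

lemma tabX : ∀ r < 4, ∀ k < 6, 1 ≤ k →
    Tab (idot (rt (vn (stX r)) k) nui) (dt (cu (vn (stX r)) * om ^ k) (cu nui)) := by
  intro r hr k hk hk1
  have h1 := s3lo
  have h3 := s3hi
  interval_cases r <;> interval_cases k <;>
    (refine ⟨fun h => ?_, fun h => ?_⟩ <;>
        first
        | exact absurd h (by decide)
        | (simp only [om0, om1, om2, om3, om4, om5]
           simp [dt, cu, nui, S1R, vn, vs, stX, c1i, Z0i, s1i, s2i]; norm_num
           try nlinarith))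

lemma tabY : ∀ r < 8, ∀ k < 6, 1 ≤ k →
    Tab (idot (rt (stY r) k) nui) (dt (cu (stY r) * om ^ k) (cu nui)) := by
  intro r hr k hk hk1
  have h1 := s3lo
  have h3 := s3hi
  interval_cases r <;> interval_cases k <;>
    (refine ⟨fun h => ?_, fun h => ?_⟩ <;>
        first
        | exact absurd h (by decide)
        | (simp only [om0, om1, om2, om3, om4, om5]
           simp [dt, cu, nui, S1R, vn, vs, va, stY, Z0i, n0i, g0i, g1i, g3i, g4i, g6i, g7i]
           norm_num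
           try nlinarith))

lemma tab_mb : ∀ j < 3, ∀ k < 6, 1 ≤ k →
    Tab (idot (rt (vn (stX 1)) k) (mdir j))
      (dt (cu (vn (stX 1)) * om ^ k) (I * cu psii * om ^ j)) := by
  intro j hj k hk hk1
  have h1 := s3lo
  have h3 := s3hi
  have h2 := s3sq
  interval_cases j <;> interval_cases k <;>
    (refine ⟨fun h => ?_, fun h => ?_⟩ <;>
        first
        | exact absurd h (by decide)
        | (simp only [om0, om1, om2, om3, om4, om5]
           simp [dt, cu, psii, S1R, vn, vs, stX, c1i, Z0i]; norm_num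
           try nlinarith))

lemma tab_gb : ∀ k < 6, 1 ≤ k → k ≠ 3 →
    Tab (idot (rt (vn (stX 1)) k) vpi) (dt (om ^ k) I) := by
  intro k hk hk1 hk3
  have h1 := s3lo
  have h3 := s3hi
  interval_cases k <;>
    first
    | exact absurd rfl hk3
    | (refine ⟨fun h => ?_, fun h => ?_⟩ <;>
        first
        | exact absurd h (by decide)
        | (simp only [om0, om1, om2, om3, om4, om5]
           simp [dt]; norm_num
           try nlinarith))

/-! ### general lemmas -/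

lemma sg_t (z : ℂ) : Par.sg true * z = z := by simp [Par.sg]
lemma sg_f (z : ℂ) : Par.sg false * z = -z := by simp [Par.sg]

/-- member of the centre pair against a rim -/
lemma wheel_c {c : ℂ} {b v : Bool} {a : V2} {s κ : ℝ} {k : ℕ} (hc : ‖c‖ = 1)
    (hca : ‖c - cu a‖ ≤ 2 / 10 ^ 6) (hs : 0 < s) (hs6 : s ≤ 1 / 10 ^ 6) (hκ0 : 0 ≤ κ)
    (hκ : κ ≤ s / 1000) (ht : Tab (idot (rt a k) nui) (dt (cu a * om ^ k) (cu nui)))
    (hv : pol b (rt a k) = v) :
    (v = true ↔ ‖(s : ℂ) * (Par.sg b * cu nui) - ((1 - κ : ℝ) : ℂ) * (c * om ^ k)‖ ≤ 1) := by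
  have h1 : (s : ℂ) * (Par.sg b * cu nui) - ((1 - κ : ℝ) : ℂ) * (c * om ^ k) =
      -(c * om ^ k) + ((s : ℂ) * (Par.sg b * cu nui) + (κ : ℂ) * (c * om ^ k)) := by
    push_cast; ring
  have hdt := dt_close (c * om ^ k) (cu a * om ^ k) (cu nui) (cu nui)
  rw [sub_self (cu nui), norm_zero, mul_zero, add_zero, nnu, mul_one, ← sub_mul, norm_mul,
    nompow, mul_one] at hdt
  have hdt2 := abs_le.1 (hdt.trans hca)
  rw [h1]
  refine key (d := Par.sg b * cu nui) (s := s) ?_ hs hs6 ?_ ?_ ?_ ?_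
  · rw [norm_neg, norm_mul, hc, nompow, one_mul]
  · rw [norm_mul, nsg, nnu]; norm_num
  · rw [add_sub_cancel_left, nreal' _ hκ0, norm_mul, hc, nompow]
    linarith
  · intro h
    rw [h, pol] at hv
    cases b with
    | true =>
      rw [sg_t, dt_neg_l]
      have := ht.1 (by simpa using hv)
      norm_num at *; linarith
    | false =>
      rw [sg_f, dt_neg_l, dt_neg_r]
      have := ht.2 (by simpa using hv)
      norm_num at *; linarith
  · intro h
    rw [h, pol] at hv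
    cases b with
    | true =>
      rw [sg_t, dt_neg_l]
      have := ht.2 (by simpa using hv)
      norm_num at *; linarith
    | false =>
      rw [sg_f, dt_neg_l, dt_neg_r]
      have := ht.1 (by simpa using hv)
      norm_num at *; linarith

lemma nker' (k : ℕ) (hk : k = 1 ∨ k = 5) (r : ℝ) :
    ‖1 - (r : ℂ) * om ^ k‖ ^ 2 = 1 - r + r ^ 2 := by
  rw [← dt_self']
  rcases hk with rfl | rfl
  · rw [om1]; simp [dt]; nlinarith [s3sq]
  · rw [om5]; simp [dt]; nlinarith [s3sq]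

/-- the next centre against the rims `1`, `5` -/
lemma near_c {c z : ℂ} {κ : ℝ} {k : ℕ} (hc : ‖c‖ = 1) (hk : k = 1 ∨ k = 5) (h0 : 0 ≤ κ)
    (h1 : κ ≤ 1 / 100) (hz : ‖z‖ ≤ κ / 4) :
    ‖c * (1 - ((1 - κ : ℝ) : ℂ) * om ^ k) + z‖ ≤ 1 := by
  refine (norm_add_le _ _).trans ?_
  rw [norm_mul, hc, one_mul]
  have h2 := nker' k hk (1 - κ)
  set N := ‖1 - ((1 - κ : ℝ) : ℂ) * om ^ k‖ with hN
  have hN0 : 0 ≤ N := norm_nonneg _
  have h3 : N ≤ 1 - κ / 4 := by
    have : N ^ 2 ≤ (1 - κ / 4) ^ 2 := by nlinarith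
    nlinarith
  linarith

/-- consecutive rims -/
lemma rims_c {c : ℂ} {κ : ℝ} {k : ℕ} (hc : ‖c‖ = 1) (h0 : 0 ≤ κ) (h1 : κ ≤ 1 / 100) :
    ‖((1 - κ : ℝ) : ℂ) * (c * om ^ k) - ((1 - κ : ℝ) : ℂ) * (c * om ^ (k + 1))‖ ≤ 1 := by
  have : ((1 - κ : ℝ) : ℂ) * (c * om ^ k) - ((1 - κ : ℝ) : ℂ) * (c * om ^ (k + 1)) =
      ((1 - κ : ℝ) : ℂ) * (c * (om ^ k - om ^ (k + 1))) := by ring
  rw [this, nreal' _ (by linarith), norm_mul, hc, norm_sub_rev, nomsub]
  linarith

section cases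
variable {σ : ℕ → ℕ → Bool} {mB nL : ℕ} {q : Par} (hq : Cfg σ mB nL q)
include hq

lemma e_cube (n : ℕ) : q.e n ^ 3 ≤ q.e n ^ 2 / 10 ^ 20 := by
  have h0 := hq.epos n
  have h2 := e_le hq n
  calc q.e n ^ 3 = q.e n ^ 2 * q.e n := by ring
    _ ≤ q.e n ^ 2 * (1 / 10 ^ 20) := by gcongr
    _ = q.e n ^ 2 / 10 ^ 20 := by ring

/-- bounds of the shrinking and of the thickness of the nodes of the bottom spine -/
lemma kap_bd (i : ℕ) : q.e (q.iend - i) ^ 3 ≤ q.kap i ∧ 0 < q.kap i ∧ q.kap i ≤ 1 / 100 ∧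
    q.kap i ≤ q.ge 0 i / 1000 ∧ 0 < q.ge 0 i ∧ q.ge 0 i ≤ q.e (q.iend - i) := by
  have h0 := hq.epos (q.iend - i)
  have h20 := e_le hq (q.iend - i)
  have hsq := e_sq hq (q.iend - i)
  have hcu := e_cube hq (q.iend - i)
  set e := q.e (q.iend - i) with he
  have hp2 : 0 < e ^ 2 := by positivity
  have hp3 : 0 < e ^ 3 := by positivity
  rw [Par.kap, Par.ge]
  by_cases h : i % 4 = 2
  · rw [if_pos h, if_pos ⟨rfl, h⟩, ← he]
    norm_num at *
    refine ⟨hp3, ?_, ?_, hp2, ?_⟩ <;> linarith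
  · have : q.rk 0 i = q.iend - i := by rw [Par.rk, if_pos rfl]
    rw [if_neg h, if_neg (fun h' => h h'.2), this, ← he]
    norm_num at *
    refine ⟨?_, hp2, ?_, ?_, h0⟩ <;> linarith

/-- the cluster of a node is small against the shrinking of the next wheel -/
lemma kap_next (i : ℕ) (hi : i + 1 ≤ q.iend) :
    12 * q.e (q.iend - i) ≤ q.kap (i + 1) / 5 := by
  have h := (kap_bd hq (i + 1)).1
  have h1 := e_lt hq (n := q.iend - (i + 1)) (m := q.iend - i) (by omega)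
  have h0 := hq.epos (q.iend - (i + 1))
  have h20 := e_le hq (q.iend - (i + 1))
  set e := q.e (q.iend - (i + 1)) with he
  have h2 : e ^ 4 ≤ e ^ 3 / 10 ^ 20 := by
    calc e ^ 4 = e ^ 3 * e := by ring
      _ ≤ e ^ 3 * (1 / 10 ^ 20) := by gcongr
      _ = e ^ 3 / 10 ^ 20 := by ring
  have hp3 : 0 < e ^ 3 := by positivity
  norm_num at *
  linarith

lemma case_gb1 (n k : ℕ) (hk : k < 6) (hk1 : 1 ≤ k) (b v : Bool)
    (hv : pol b (rt (vn (stX n)) k) = v) :
    (v = true ↔ ‖q.pos (.g 0 (n + 1) b) - q.pos (.bd (n + 1) k)‖ ≤ 1) := by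
  obtain ⟨_, k2, k3, k4, g1, g2⟩ := kap_bd hq (n + 1)
  have h20 := e_le hq (q.iend - (n + 1))
  have h1 : q.pos (.g 0 (n + 1) b) - q.pos (.bd (n + 1) k) =
      ((q.ge 0 (n + 1) : ℝ) : ℂ) * (Par.sg b * cu nui) -
        ((1 - q.kap (n + 1) : ℝ) : ℂ) * ((q.X n - q.X (n + 1)) * om ^ k) := by
    simp only [Par.pos, hq.Y0, Nat.add_sub_cancel]
    ring
  rw [h1]
  have ht := tabX (n % 4) (Nat.mod_lt _ (by norm_num)) k hk hk1
  rw [← stX_mod] at ht
  refine wheel_c (Xn hq n) (Xstep hq n) g1 (g2.trans (h20.trans (by norm_num))) k2.le k4 ht hv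

lemma case_gb2 (i k : ℕ) (hi : i + 1 ≤ q.iend) (hk : k = 1 ∨ k = 5) (b : Bool) :
    ‖q.pos (.g 0 i b) - q.pos (.bd (i + 1) k)‖ ≤ 1 := by
  obtain ⟨_, k2, k3, k4, _, _⟩ := kap_bd hq (i + 1)
  obtain ⟨_, _, _, _, g1, g2⟩ := kap_bd hq i
  have hn := kap_next hq i hi
  have h0 := hq.epos (q.iend - i)
  have h1 : q.pos (.g 0 i b) - q.pos (.bd (i + 1) k) =
      (q.X i - q.X (i + 1)) * (1 - ((1 - q.kap (i + 1) : ℝ) : ℂ) * om ^ k) +
      ((q.ge 0 i : ℝ) : ℂ) * (Par.sg b * cu nui) := by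
    simp only [Par.pos, hq.Y0, Nat.add_sub_cancel]
    ring
  rw [h1]
  refine near_c (Xn hq i) hk k2.le k3 ?_
  rw [nreal' _ g1.le, norm_mul, nsg, nnu]
  linarith

lemma case_mb1 (p k j : ℕ) (hk : k < 6) (hk1 : 1 ≤ k) (hj : j < 3) (v : Bool)
    (hv : decide (0 < idot (rt (vn (stX (4 * p + 1))) k) (mdir j)) = v) :
    (v = true ↔ ‖q.pos (.m (4 * p + 2) j) - q.pos (.bd (4 * p + 2) k)‖ ≤ 1) := by
  obtain ⟨_, k2, k3, k4, g1, g2⟩ := kap_bd hq (4 * p + 2)
  have h0 := hq.epos (q.iend - (4 * p + 2))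
  have h20 := e_le hq (q.iend - (4 * p + 2))
  set e := q.e (q.iend - (4 * p + 2)) with he
  set κ := q.kap (4 * p + 2) with hκ
  have hst : stX (4 * p + 1) = stX 1 := by
    rw [stX_mod]; congr 1; omega
  rw [hst] at hv
  have ht := tab_mb j hj k hk hk1
  rw [Tab, hv] at ht
  have hψ : ‖I * cu psii * om ^ j‖ = 1 := by
    rw [norm_mul, norm_mul, npsi, nompow, Complex.norm_I]; norm_num
  have hX := Xstep hq (4 * p + 1)
  rw [hst, show 4 * p + 1 + 1 = 4 * p + 2 from rfl] at hX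
  have h1 : q.pos (.m (4 * p + 2) j) - q.pos (.bd (4 * p + 2) k) =
      -((q.X (4 * p + 1) - q.X (4 * p + 2)) * om ^ k) + ((e : ℂ) * (I * cu psii * om ^ j) +
        (κ : ℂ) * ((q.X (4 * p + 1) - q.X (4 * p + 2)) * om ^ k)) := by
    simp only [Par.pos, ← he, ← hκ, show 4 * p + 2 - 1 = 4 * p + 1 from rfl]
    push_cast
    ring
  set c := q.X (4 * p + 1) - q.X (4 * p + 2) with hc
  have hcn : ‖c‖ = 1 := c2n hq p
  have hdt := dt_close (c * om ^ k) (cu (vn (stX 1)) * om ^ k) (I * cu psii * om ^ j)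
    (I * cu psii * om ^ j)
  rw [sub_self (I * cu psii * om ^ j), norm_zero, mul_zero, add_zero, hψ, mul_one, ← sub_mul,
    norm_mul, nompow, mul_one] at hdt
  have hdt2 := abs_le.1 (hdt.trans hX)
  rw [h1]
  refine key (d := I * cu psii * om ^ j) (s := e) ?_ h0 (h20.trans (by norm_num)) ?_ ?_ ?_ ?_
  · rw [norm_neg, norm_mul, hcn, nompow, one_mul]
  · rw [hψ]; norm_num
  · rw [add_sub_cancel_left, nreal' _ k2.le, norm_mul, hcn, nompow]
    linarith
  · intro h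
    rw [dt_neg_l]
    have := ht.1 h
    norm_num at *; linarith
  · intro h
    rw [dt_neg_l]
    have := ht.2 h
    norm_num at *; linarith

lemma case_mb2 (p k j : ℕ) (hi : 4 * p + 2 + 1 ≤ q.iend) (hk : k = 1 ∨ k = 5) :
    ‖q.pos (.m (4 * p + 2) j) - q.pos (.bd (4 * p + 2 + 1) k)‖ ≤ 1 := by
  obtain ⟨_, k2, k3, k4, _, _⟩ := kap_bd hq (4 * p + 2 + 1)
  have hn := kap_next hq (4 * p + 2) hi
  have h0 := hq.epos (q.iend - (4 * p + 2))
  have hψ : ‖I * cu psii * om ^ j‖ = 1 := by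
    rw [norm_mul, norm_mul, npsi, nompow, Complex.norm_I]; norm_num
  have h1 : q.pos (.m (4 * p + 2) j) - q.pos (.bd (4 * p + 2 + 1) k) =
      (q.X (4 * p + 2) - q.X (4 * p + 2 + 1)) *
        (1 - ((1 - q.kap (4 * p + 2 + 1) : ℝ) : ℂ) * om ^ k) +
      ((q.e (q.iend - (4 * p + 2)) : ℝ) : ℂ) * (I * cu psii * om ^ j) := by
    simp only [Par.pos, Nat.add_sub_cancel]
    ring
  rw [h1]
  refine near_c (Xn hq _) hk k2.le k3 ?_
  rw [nreal' _ h0.le, hψ]
  linarith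

lemma case_gpb1 (p k : ℕ) (hk : k < 6) (hk1 : 1 ≤ k) (b v : Bool)
    (hv : (if k = 3 then false else decide (0 < idot (rt (vn (stX (4 * p + 1))) k) vpi)) = v) :
    (v = true ↔ ‖q.pos (.gp 0 (4 * p + 2) b) - q.pos (.bd (4 * p + 2) k)‖ ≤ 1) := by
  obtain ⟨_, k2, k3, k4, g1, g2⟩ := kap_bd hq (4 * p + 2)
  have hg := ge2 (q := q) p
  have h0 := hq.epos (q.iend - (4 * p + 2))
  have h20 := e_le hq (q.iend - (4 * p + 2))
  have hsq := e_sq hq (q.iend - (4 * p + 2))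
  have hvp := vpo_bd hq p
  have hs : q.e (q.iend + q.Lr + 0 + (4 * p + 2) + 4) ≤ q.e (q.iend - (4 * p + 2)) ^ 2 / 10 ^ 6 :=
    e_lt2 hq (by omega)
  have hs0 := hq.epos (q.iend + q.Lr + 0 + (4 * p + 2) + 4)
  have hκe : q.kap (4 * p + 2) ≤ q.e (q.iend - (4 * p + 2)) ^ 2 / 16000 := by
    rw [hg] at k4; linarith
  set e' := q.e (q.iend + q.Lr + 0 + (4 * p + 2) + 4) with he'
  set e := q.e (q.iend - (4 * p + 2)) with he
  set κ := q.kap (4 * p + 2) with hκ
  have hst : stX (4 * p + 1) = stX 1 := by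
    rw [stX_mod]; congr 1; omega
  rw [hst] at hv
  have h1 : q.pos (.gp 0 (4 * p + 2) b) - q.pos (.bd (4 * p + 2) k) =
      -((q.X (4 * p + 1) - q.X (4 * p + 2)) * om ^ k) + (q.vpo (4 * p + 2) +
        (e' : ℂ) * (Par.sg b * cu nui) +
        (κ : ℂ) * ((q.X (4 * p + 1) - q.X (4 * p + 2)) * om ^ k)) := by
    simp only [Par.pos, hq.Y0, ← he', ← hκ, show 4 * p + 2 - 1 = 4 * p + 1 from rfl]
    push_cast
    ring
  have hvpo : q.vpo (4 * p + 2) = (q.X (4 * p + 1) - q.X (4 * p + 2)) *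
      (1 - ((Real.sqrt (1 - 100 * e ^ 2) : ℝ) - 10 * (e : ℝ) * I)) := by
    simp only [Par.vpo, ← he, show 4 * p + 2 - 1 = 4 * p + 1 from rfl]
  set c := q.X (4 * p + 1) - q.X (4 * p + 2) with hc
  have hcn : ‖c‖ = 1 := c2n hq p
  rw [h1]
  by_cases hk3 : k = 3
  · rw [if_pos hk3] at hv
    subst hv
    simp only [Bool.false_eq_true, false_iff, not_le]
    have hx : 100 * e ^ 2 ≤ 1 := by
      have : e / 10 ^ 20 ≤ 1 / 100 := by
        norm_num at h20 ⊢; linarith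
      linarith
    have hb := (sqrt_bd (x := 100 * e ^ 2) (by positivity) hx).1
    set r := Real.sqrt (1 - 100 * e ^ 2) with hr
    have h2 : -(c * om ^ k) + (q.vpo (4 * p + 2) + (e' : ℂ) * (Par.sg b * cu nui) +
        (κ : ℂ) * (c * om ^ k)) =
        c * (⟨2 - κ - r, 10 * e⟩ : ℂ) - (e' : ℂ) * (-(Par.sg b * cu nui)) := by
      rw [hk3, om3, hvpo]
      have : (⟨2 - κ - r, 10 * e⟩ : ℂ) = ((2 - κ - r : ℝ) : ℂ) + ((10 * e : ℝ) : ℂ) * I := by
        apply Complex.ext <;> simp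
      rw [this]
      have h3 : (⟨-1, 0⟩ : ℂ) = -1 := by apply Complex.ext <;> simp
      rw [h3]
      push_cast
      ring
    rw [h2]
    have h3 := norm_sub_norm_le (c * (⟨2 - κ - r, 10 * e⟩ : ℂ)) ((e' : ℂ) * (-(Par.sg b * cu nui)))
    rw [norm_mul, hcn, one_mul, nreal' _ hs0.le, norm_neg, norm_mul, nsg, nnu] at h3
    have h4 := dt_self' (⟨2 - κ - r, 10 * e⟩ : ℂ)
    simp only [dt] at h4
    have hp2 : 0 < e ^ 2 := by positivity
    have h5 : 1 + 40 * e ^ 2 ≤ 2 - κ - r := by linarith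
    have h6 : 1 + 40 * e ^ 2 ≤ ‖(⟨2 - κ - r, 10 * e⟩ : ℂ)‖ := by
      have : (1 + 40 * e ^ 2) ^ 2 ≤ ‖(⟨2 - κ - r, 10 * e⟩ : ℂ)‖ ^ 2 := by nlinarith
      nlinarith [norm_nonneg (⟨2 - κ - r, 10 * e⟩ : ℂ)]
    have h7 : e' ≤ e ^ 2 := by
      refine hs.trans ?_
      norm_num; linarith
    linarith
  · rw [if_neg hk3] at hv
    have ht := tab_gb k hk hk1 hk3
    rw [Tab, hv] at ht
    have hdt : dt (-(c * om ^ k)) (10 * (I * c)) = -10 * dt (om ^ k) I := by
      have : (10 : ℂ) * (I * c) = ((10 : ℝ) : ℂ) * (c * I) := by push_cast; ring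
      rw [dt_neg_l, this, dt_smul_r, dt_mul_l, hcn]; ring
    refine key (d := 10 * (I * c)) (s := e) ?_ h0 (h20.trans (by norm_num)) ?_ ?_ ?_ ?_
    · rw [norm_neg, norm_mul, hcn, nompow, one_mul]
    · rw [norm_mul, norm_mul, hcn, Complex.norm_I]; norm_num
    · have : q.vpo (4 * p + 2) + (e' : ℂ) * (Par.sg b * cu nui) +
          (κ : ℂ) * (c * om ^ k) - (e : ℂ) * (10 * (I * c)) =
          (q.vpo (4 * p + 2) - (e : ℂ) * (10 * (I * c))) + (e' : ℂ) * (Par.sg b * cu nui) +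
          (κ : ℂ) * (c * om ^ k) := by ring
      rw [this]
      refine (norm_add₃_le).trans ?_
      rw [nreal' _ hs0.le, nreal' _ k2.le, norm_mul, norm_mul, nsg, nnu, hcn, nompow]
      have hp2 : 0 < e ^ 2 := by positivity
      norm_num at *
      linarith
    · intro h
      have := ht.1 h
      rw [hdt]; linarith
    · intro h
      have := ht.2 h
      rw [hdt]; linarith

lemma case_gpb2 (p k : ℕ) (hi : 4 * p + 2 + 1 ≤ q.iend) (hk : k = 1 ∨ k = 5) (b : Bool) :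
    ‖q.pos (.gp 0 (4 * p + 2) b) - q.pos (.bd (4 * p + 2 + 1) k)‖ ≤ 1 := by
  obtain ⟨_, k2, k3, k4, _, _⟩ := kap_bd hq (4 * p + 2 + 1)
  have hn := kap_next hq (4 * p + 2) hi
  have h0 := hq.epos (q.iend - (4 * p + 2))
  have hv := vpo_n hq p
  have hs : q.e (q.iend + q.Lr + 0 + (4 * p + 2) + 4) ≤ q.e (q.iend - (4 * p + 2)) :=
    e_anti hq (by omega)
  have hs0 := hq.epos (q.iend + q.Lr + 0 + (4 * p + 2) + 4)
  have h1 : q.pos (.gp 0 (4 * p + 2) b) - q.pos (.bd (4 * p + 2 + 1) k) =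
      (q.X (4 * p + 2) - q.X (4 * p + 2 + 1)) *
        (1 - ((1 - q.kap (4 * p + 2 + 1) : ℝ) : ℂ) * om ^ k) +
      (q.vpo (4 * p + 2) + ((q.e (q.iend + q.Lr + 0 + (4 * p + 2) + 4) : ℝ) : ℂ) *
        (Par.sg b * cu nui)) := by
    simp only [Par.pos, hq.Y0, Nat.add_sub_cancel]
    ring
  rw [h1]
  refine near_c (Xn hq _) hk k2.le k3 ?_
  refine (norm_add_le _ _).trans ?_
  rw [nreal' _ hs0.le, norm_mul, nsg, nnu]
  linarith

lemma case_bb (n k : ℕ) : ‖q.pos (.bd (n + 1) k) - q.pos (.bd (n + 1) (k + 1))‖ ≤ 1 := by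
  obtain ⟨_, k2, k3, _, _, _⟩ := kap_bd hq (n + 1)
  have h1 : q.pos (.bd (n + 1) k) - q.pos (.bd (n + 1) (k + 1)) =
      ((1 - q.kap (n + 1) : ℝ) : ℂ) * ((q.X n - q.X (n + 1)) * om ^ k) -
      ((1 - q.kap (n + 1) : ℝ) : ℂ) * ((q.X n - q.X (n + 1)) * om ^ (k + 1)) := by
    simp only [Par.pos, Nat.add_sub_cancel]
    ring
  rw [h1]
  exact rims_c (Xn hq n) k2.le k3

/-! ### the left spine -/

omit hq in
lemma rk0 (l : ℕ) : q.rk l 0 = q.iend + l ∧ q.ge l 0 = q.e (q.iend + l) := by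
  have h : q.rk l 0 = q.iend + l := by
    rw [Par.rk]
    split_ifs with h
    · subst h; rfl
    · rfl
    · omega
  refine ⟨h, ?_⟩
  rw [Par.ge, if_neg (by omega), h]

lemma ksm (n : ℕ) : 0 < q.e n ^ 2 ∧ q.e n ^ 2 ≤ 1 / 100 ∧ q.e n ^ 2 ≤ q.e n / 1000 := by
  have h0 := hq.epos n
  have h20 := e_le hq n
  have hsq := e_sq hq n
  refine ⟨by positivity, ?_, ?_⟩
  · norm_num at *; linarith
  · norm_num at *; linarith

lemma case_gk1 (l k : ℕ) (hk : k < 6) (hk1 : 1 ≤ k) (b v : Bool)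
    (hv : pol b (rt (stY l) k) = v) :
    (v = true ↔ ‖q.pos (.g l 0 b) - q.pos (.kd l k)‖ ≤ 1) := by
  obtain ⟨r1, r2⟩ := rk0 (q := q) l
  obtain ⟨s1, s2, s3⟩ := ksm hq (q.iend + l)
  have h0 := hq.epos (q.iend + l)
  have h20 := e_le hq (q.iend + l)
  have h1 : q.pos (.g l 0 b) - q.pos (.kd l k) =
      ((q.e (q.iend + l) : ℝ) : ℂ) * (Par.sg b * cu nui) -
        ((1 - q.e (q.iend + l) ^ 2 : ℝ) : ℂ) * ((q.Y (l + 1) - q.Y l) * om ^ k) := by
    simp only [Par.pos, hq.X0, r1, r2]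
    ring
  rw [h1]
  have ht := tabY (l % 8) (Nat.mod_lt _ (by norm_num)) k hk hk1
  rw [← stY_mod] at ht
  exact wheel_c (hq.Yu l) (Ystep hq l) h0 (h20.trans (by norm_num)) s1.le s3 ht hv

lemma case_gk2 (l k : ℕ) (hk : k = 1 ∨ k = 5) (b : Bool) :
    ‖q.pos (.g (l + 1) 0 b) - q.pos (.kd l k)‖ ≤ 1 := by
  obtain ⟨r1, r2⟩ := rk0 (q := q) l
  obtain ⟨_, r3⟩ := rk0 (q := q) (l + 1)
  obtain ⟨s1, s2, s3⟩ := ksm hq (q.iend + l)
  have h0 := hq.epos (q.iend + (l + 1))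
  have h2 := e_lt2 hq (n := q.iend + l) (m := q.iend + (l + 1)) (by omega)
  have h1 : q.pos (.g (l + 1) 0 b) - q.pos (.kd l k) =
      (q.Y (l + 1) - q.Y l) * (1 - ((1 - q.e (q.iend + l) ^ 2 : ℝ) : ℂ) * om ^ k) +
      ((q.e (q.iend + (l + 1)) : ℝ) : ℂ) * (Par.sg b * cu nui) := by
    simp only [Par.pos, hq.X0, r1, r3]
    ring
  rw [h1]
  refine near_c (hq.Yu l) hk s1.le s2 ?_
  rw [nreal' _ h0.le, norm_mul, nsg, nnu]
  norm_num at *
  linarith

lemma case_kk (l k : ℕ) : ‖q.pos (.kd l k) - q.pos (.kd l (k + 1))‖ ≤ 1 := by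
  obtain ⟨r1, r2⟩ := rk0 (q := q) l
  obtain ⟨s1, s2, s3⟩ := ksm hq (q.iend + l)
  have h1 : q.pos (.kd l k) - q.pos (.kd l (k + 1)) =
      ((1 - q.e (q.iend + l) ^ 2 : ℝ) : ℂ) * ((q.Y (l + 1) - q.Y l) * om ^ k) -
      ((1 - q.e (q.iend + l) ^ 2 : ℝ) : ℂ) * ((q.Y (l + 1) - q.Y l) * om ^ (k + 1)) := by
    simp only [Par.pos, r1]
    ring
  rw [h1]
  exact rims_c (hq.Yu l) s1.le s2

end cases

/-- **C5b.** -/
theorem C5b : S_C5b := by
  intro σ mB nL q hq x y hK hx hy v hr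
  cases y with
  | bd i' k =>
    obtain ⟨hi1, hie, hk1, hk⟩ := hy
    rw [← hq.hi] at hie
    obtain ⟨n, rfl⟩ : ∃ n, i' = n + 1 := ⟨i' - 1, by omega⟩
    have hk6 : k < 6 := by omega
    cases x with
    | g l i b =>
      simp only [rule, Nat.add_sub_cancel] at hr
      split_ifs at hr with h h'
      · obtain ⟨rfl, rfl⟩ := h
        exact case_gb1 hq n k hk6 hk1 b v (by simpa using hr)
      · obtain ⟨rfl, h1, h2⟩ := h'
        obtain rfl : i = n := by omega
        have hv : true = v := by simpa using hr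
        subst hv
        simp only [true_iff]
        exact case_gb2 hq i k hie h2 b
    | gp l i b =>
      obtain ⟨hi4, hir, hl⟩ := hx
      obtain ⟨p, rfl⟩ : ∃ p, i = 4 * p + 2 := ⟨i / 4, by omega⟩
      simp only [rule, Nat.add_sub_cancel] at hr
      split_ifs at hr with h h' h''
      · obtain ⟨rfl, h1⟩ := h
        obtain rfl : n = 4 * p + 1 := by omega
        exact case_gpb1 hq p k hk6 hk1 b v (by rw [if_pos h']; simpa using hr)
      · obtain ⟨rfl, h1⟩ := h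
        obtain rfl : n = 4 * p + 1 := by omega
        exact case_gpb1 hq p k hk6 hk1 b v (by rw [if_neg h']; simpa using hr)
      · obtain ⟨rfl, h1, h2⟩ := h''
        obtain rfl : n = 4 * p + 2 := by omega
        have hv : true = v := by simpa using hr
        subst hv
        simp only [true_iff]
        exact case_gpb2 hq p k hie h2 b
    | m i j =>
      obtain ⟨hi4, hir, hj⟩ := hx
      obtain ⟨p, rfl⟩ : ∃ p, i = 4 * p + 2 := ⟨i / 4, by omega⟩
      simp only [rule, Nat.add_sub_cancel] at hr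
      split_ifs at hr with h h'
      · obtain rfl : n = 4 * p + 1 := by omega
        exact case_mb1 hq p k j hk6 hk1 hj v (by simpa using hr)
      · obtain ⟨h1, h2⟩ := h'
        obtain rfl : n = 4 * p + 2 := by omega
        have hv : true = v := by simpa using hr
        subst hv
        simp only [true_iff]
        exact case_mb2 hq p k j hie h2
    | bd i k' =>
      simp only [rule] at hr
      split_ifs at hr with h
      obtain ⟨rfl, rfl⟩ := h
      have hv : true = v := by simpa using hr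
      subst hv
      simp only [true_iff]
      exact case_bb hq n k'
    | _ => simp [rule] at hr
  | kd l' k =>
    obtain ⟨hl, hk1, hk⟩ := hy
    have hk6 : k < 6 := by omega
    cases x with
    | g l i b =>
      simp only [rule] at hr
      split_ifs at hr with h h'
      · obtain ⟨rfl, rfl⟩ := h
        exact case_gk1 hq l k hk6 hk1 b v (by simpa using hr)
      · obtain ⟨rfl, rfl, h2⟩ := h'
        have hv : true = v := by simpa using hr
        subst hv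
        simp only [true_iff]
        exact case_gk2 hq l' k h2 b
    | kd l k' =>
      simp only [rule] at hr
      split_ifs at hr with h
      obtain ⟨rfl, rfl⟩ := h
      have hv : true = v := by simpa using hr
      subst hv
      simp only [true_iff]
      exact case_kk hq l k'
    | _ => simp [rule] at hr
  | g l i b => simp [kn] at hK
  | gp l i b => simp [kn] at hK
  | m i j => simp [kn] at hK
  | a i k => simp [kn] at hK
  | t i k => simp [kn] at hK
  | h i k => simp [kn] at hK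
  | hd i k => simp [kn] at hK
  | w k => simp [kn] at hK

end Run7.h114.UD


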