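import Pool.Agent.Run7.h840.IfaceC

/-!
# Piece C5c: designated pairs with `a`, `t`, `h`, `hd`
-/

namespace Run7.h114.UD

open Run7.h840 Complex

/-! ### dot products -/

lemma dt_self' (a : ℂ) : dt a a = ‖a‖ ^ 2 := by
  rw [Complex.sq_norm, Complex.normSq_apply, dt]

lemma dt_add_r (a b c : ℂ) : dt a (b + c) = dt a b + dt a c := by simp [dt]; ring
lemma dt_neg_l (a b : ℂ) : dt (-a) b = -dt a b := by simp [dt]; ring
lemma dt_neg_r (a b : ℂ) : dt a (-b) = -dt a b := by simp [dt]; ring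
lemma dt_smul_r (a b : ℂ) (s : ℝ) : dt a (s * b) = s * dt a b := by simp [dt]; ring

lemma abs_dt_le (a b : ℂ) : |dt a b| ≤ ‖a‖ * ‖b‖ := by
  apply abs_le_of_sq_le_sq _ (by positivity)
  have h1 := dt_self' a
  have h2 := dt_self' b
  have : (dt a b) ^ 2 + (cr a b) ^ 2 = (‖a‖ * ‖b‖) ^ 2 := by
    rw [mul_pow, ← h1, ← h2]; simp [dt, cr]; ring
  nlinarith [sq_nonneg (cr a b)]

lemma sq_norm_add (U w : ℂ) : ‖U + w‖ ^ 2 = ‖U‖ ^ 2 + 2 * dt U w + ‖w‖ ^ 2 := by
  rw [← dt_self', ← dt_self', ← dt_self']; simp [dt]; ring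

lemma dt_close (U U0 d d0 : ℂ) : |dt U d - dt U0 d0| ≤ ‖U - U0‖ * ‖d‖ + ‖U0‖ * ‖d - d0‖ := by
  have : dt U d - dt U0 d0 = dt (U - U0) d + dt U0 (d - d0) := by simp [dt]; ring
  rw [this]
  exact (abs_add_le _ _).trans (add_le_add (abs_dt_le _ _) (abs_dt_le _ _))

/-- **Dominance.** -/
lemma key {U w d : ℂ} {s : ℝ} {b : Bool} (hU : ‖U‖ = 1) (hs : 0 < s) (hs6 : s ≤ 1 / 10 ^ 6)
    (hd : ‖d‖ ≤ 13) (hw : ‖w - s * d‖ ≤ s / 1000)
    (h1 : b = true → dt U d ≤ -(1 / 50)) (h2 : b = false → 1 / 50 ≤ dt U d) :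
    (b = true ↔ ‖U + w‖ ≤ 1) := by
  have e1 := sq_norm_add U w
  have e2 : dt U w = s * dt U d + dt U (w - s * d) := by
    simp [dt]; ring
  have e3 : |dt U (w - s * d)| ≤ s / 1000 :=
    (abs_dt_le _ _).trans (by rw [hU, one_mul]; exact hw)
  have e4 : ‖w‖ ≤ 14 * s := by
    have : w = (w - s * d) + s * d := by ring
    have h3 : ‖(s : ℂ) * d‖ = s * ‖d‖ := by
      rw [norm_mul, Complex.norm_real, Real.norm_eq_abs, abs_of_pos hs]
    calc ‖w‖ ≤ ‖w - s * d‖ + ‖(s : ℂ) * d‖ := by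
          conv_lhs => rw [this]
          exact norm_add_le _ _
      _ ≤ s / 1000 + s * 13 := by rw [h3]; gcongr
      _ ≤ 14 * s := by linarith
  rw [hU] at e1
  have e3' := abs_le.1 e3
  have hw0 := norm_nonneg w
  cases b with
  | true =>
    have h := h1 rfl
    simp only [true_iff]
    have hsd : s * dt U d ≤ s * (-(1 / 50)) := by gcongr
    have hw2 : ‖w‖ ^ 2 ≤ s / 1000 := by
      calc ‖w‖ ^ 2 ≤ (14 * s) ^ 2 := by gcongr
        _ = 196 * s * s := by ring
        _ ≤ 196 * s * (1 / 10 ^ 6) := by gcongr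
        _ ≤ s / 1000 := by nlinarith
    have : ‖U + w‖ ^ 2 ≤ 1 := by nlinarith
    nlinarith [norm_nonneg (U + w)]
  | false =>
    have h := h2 rfl
    simp only [Bool.false_eq_true, false_iff, not_le]
    have hsd : s * (1 / 50) ≤ s * dt U d := by gcongr
    have : 1 < ‖U + w‖ ^ 2 := by nlinarith [sq_nonneg ‖w‖]
    nlinarith [norm_nonneg (U + w)]

/-! ### sixth roots of unity -/

lemma s3sq : Real.sqrt 3 * Real.sqrt 3 = 3 := Real.mul_self_sqrt (by norm_num)
lemma s3lo : (1.7320508 : ℝ) ≤ Real.sqrt 3 := Real.le_sqrt_of_sq_le (by norm_num)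
lemma s3hi : Real.sqrt 3 ≤ 1.7320509 := Real.sqrt_le_iff.2 ⟨by norm_num, by norm_num⟩

lemma om0 : om ^ 0 = ⟨1, 0⟩ := by rw [pow_zero]; rfl
lemma om1 : om ^ 1 = ⟨1 / 2, Real.sqrt 3 / 2⟩ := by rw [pow_one]; rfl
lemma om2 : om ^ 2 = ⟨-(1 / 2), Real.sqrt 3 / 2⟩ := by
  have := s3sq
  rw [sq]; apply Complex.ext <;> simp [om] <;> nlinarith
lemma om3 : om ^ 3 = ⟨-1, 0⟩ := by
  have := s3sq
  rw [pow_succ, om2]; apply Complex.ext <;> simp [om] <;> nlinarith
lemma om4 : om ^ 4 = ⟨-(1 / 2), -(Real.sqrt 3 / 2)⟩ := by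
  rw [pow_succ, om3]; apply Complex.ext <;> simp [om]
lemma om5 : om ^ 5 = ⟨1 / 2, -(Real.sqrt 3 / 2)⟩ := by
  have := s3sq
  rw [pow_succ, om4]; apply Complex.ext <;> simp [om] <;> nlinarith

lemma nom : ‖om‖ = 1 := by
  have h := dt_self' om
  have : dt om om = 1 := by simp [dt, om]; nlinarith [s3sq]
  rw [this] at h
  nlinarith [norm_nonneg om]

lemma nompow (k : ℕ) : ‖om ^ k‖ = 1 := by rw [norm_pow, nom, one_pow]

/-- consecutive powers are at distance one -/
lemma nomsub (k : ℕ) : ‖om ^ (k + 1) - om ^ k‖ = 1 := by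
  have : om ^ (k + 1) - om ^ k = om ^ k * (om - 1) := by ring
  rw [this, norm_mul, nompow, one_mul]
  have h := dt_self' (om - 1)
  have : dt (om - 1) (om - 1) = 1 := by simp [dt, om]; nlinarith [s3sq]
  rw [this] at h
  nlinarith [norm_nonneg (om - 1)]

lemma nom05 : ‖om ^ 5 - om ^ 0‖ = 1 := by
  have h := dt_self' (om ^ 5 - om ^ 0)
  have : dt (om ^ 5 - om ^ 0) (om ^ 5 - om ^ 0) = 1 := by
    rw [om5, om0]; simp [dt]; nlinarith [s3sq]
  rw [this] at h
  nlinarith [norm_nonneg (om ^ 5 - om ^ 0)]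

/-! ### directions -/

lemma ncu {a : V2} (h : (a.1 * a.1 + a.2 * a.2 : ℤ) = S1 * S1) : ‖cu a‖ = 1 := by
  have h1 := dt_self' (cu a)
  have h2 : dt (cu a) (cu a) = 1 := by
    have : ((a.1 : ℝ) * a.1 + a.2 * a.2) = (S1 : ℝ) * S1 := by exact_mod_cast h
    have hS : (S1 : ℝ) ≠ 0 := by norm_num [S1]
    simp only [dt, cu]
    field_simp
    nlinarith
  rw [h2] at h1
  nlinarith [norm_nonneg (cu a)]

lemma nnu : ‖cu nui‖ = 1 := ncu (by norm_num [nui, S1])
lemma npsi : ‖cu psii‖ = 1 := ncu (by norm_num [psii, S1])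
lemma nth (j : ℕ) : ‖cu (thi j)‖ = 1 := by
  apply ncu
  rcases j with _ | _ | j <;> norm_num [thi, S1]

lemma nsg (b : Bool) : ‖Par.sg b‖ = 1 := by cases b <;> simp [Par.sg]

/-! ### the scales -/

section scales
variable {σ : ℕ → ℕ → Bool} {mB nL : ℕ} {q : Par} (hq : Cfg σ mB nL q)
include hq

lemma e_step (n : ℕ) : q.e (n + 1) ≤ q.e n := by
  have h1 := hq.es n
  have h0 := hq.epos n
  have : ∀ m, q.e m ≤ 1 := by
    intro m
    induction m with
    | zero => have := hq.e0; norm_num at this ⊢; linarith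
    | succ m ih =>
      have h1 := hq.es m
      have h0 := hq.epos m
      have : q.e m ^ 4 ≤ 1 := pow_le_one₀ h0.le ih
      norm_num at h1 ⊢; linarith
  have h2 : q.e n ^ 4 ≤ q.e n := by
    calc q.e n ^ 4 = q.e n * q.e n ^ 3 := by ring
      _ ≤ q.e n * 1 := by gcongr; exact pow_le_one₀ h0.le (this n)
      _ = q.e n := by ring
  have : q.e n ^ 4 / 10 ^ 6 ≤ q.e n := by
    have : 0 ≤ q.e n ^ 4 := by positivity
    norm_num; linarith
  linarith

lemma e_anti : Antitone q.e := antitone_nat_of_succ_le (e_step hq)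

lemma e_le (n : ℕ) : q.e n ≤ 1 / 10 ^ 20 := (e_anti hq (Nat.zero_le n)).trans hq.e0

lemma e_lt {n m : ℕ} (h : n < m) : q.e m ≤ q.e n ^ 4 / 10 ^ 6 :=
  (e_anti hq h).trans (hq.es n)

/-- a later scale is much smaller -/
lemma e_lt2 {n m : ℕ} (h : n < m) : q.e m ≤ q.e n ^ 2 / 10 ^ 6 := by
  have h1 := e_lt hq h
  have h0 := hq.epos n
  have h2 := e_le hq n
  have : q.e n ^ 4 ≤ q.e n ^ 2 := by
    calc q.e n ^ 4 = q.e n ^ 2 * q.e n ^ 2 := by ring
      _ ≤ q.e n ^ 2 * 1 := by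
        gcongr; exact pow_le_one₀ h0.le (h2.trans (by norm_num))
      _ = q.e n ^ 2 := by ring
  have h3 : q.e n ^ 4 / 10 ^ 6 ≤ q.e n ^ 2 / 10 ^ 6 := by gcongr
  linarith

lemma e_sq (n : ℕ) : q.e n ^ 2 ≤ q.e n / 10 ^ 20 := by
  have h0 := hq.epos n
  have h2 := e_le hq n
  calc q.e n ^ 2 = q.e n * q.e n := by ring
    _ ≤ q.e n * (1 / 10 ^ 20) := by gcongr
    _ = q.e n / 10 ^ 20 := by ring

end scales

lemma sqrt_bd {x : ℝ} (h0 : 0 ≤ x) (h1 : x ≤ 1) :
    Real.sqrt (1 - x) ≤ 1 - x / 2 ∧ 1 - x ≤ Real.sqrt (1 - x) := by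
  constructor
  · apply Real.sqrt_le_iff.2 ⟨by linarith, by nlinarith⟩
  · apply Real.le_sqrt_of_sq_le; nlinarith

/-! ### steps -/

section steps
variable {σ : ℕ → ℕ → Bool} {mB nL : ℕ} {q : Par} (hq : Cfg σ mB nL q)
include hq

/-- step from the second to the third column of a block -/
lemma c2n (p : ℕ) : ‖q.X (4 * p + 1) - q.X (4 * p + 2)‖ = 1 := by
  rw [norm_sub_rev]; exact hq.Xu (4 * p + 1)

omit hq in
lemma cS_sub (a b : V2) : cS a - cS b = cS (vs a b) := by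
  apply Complex.ext <;> simp [cS, vs] <;> ring

omit hq in
lemma cS_S2 (a : V2) : cS (vm S2 a) = cu a := by
  have h1 : (SS : ℝ) = S1 * S2 := by norm_num [SS, S1, S2]
  have h2 : (S2 : ℝ) ≠ 0 := by norm_num [S2]
  have h3 : (S1 : ℝ) ≠ 0 := by norm_num [S1]
  apply Complex.ext <;> simp only [cS, cu, vm, h1] <;> push_cast <;> field_simp

omit hq in
lemma NX12 (p : ℕ) : vs (NX (4 * p + 1)) (NX (4 * p + 2)) = vm S2 c2i := by
  have e1 : (4 * p + 1) / 4 = p := by omega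
  have e2 : (4 * p + 1) % 4 = 1 := by omega
  have e3 : (4 * p + 2) / 4 = p := by omega
  have e4 : (4 * p + 2) % 4 = 2 := by omega
  rw [NX, NX, e1, e2, e3, e4]
  simp only [vs, vm, va, Xo, c1i, Z0i, c2i, S2, Prod.mk.injEq]
  constructor <;> ring

omit hq in
lemma NX02 (p : ℕ) : vs (NX (4 * p + 2)) (NX (4 * p)) = vm S2 Z0i := by
  have e1 : (4 * p) / 4 = p := by omega
  have e2 : (4 * p) % 4 = 0 := by omega
  have e3 : (4 * p + 2) / 4 = p := by omega
  have e4 : (4 * p + 2) % 4 = 2 := by omega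
  rw [NX, NX, e1, e2, e3, e4]
  simp only [vs, vm, va, Xo, Z0i, S2, Prod.mk.injEq]
  constructor <;> ring

lemma c2c (p : ℕ) : ‖(q.X (4 * p + 1) - q.X (4 * p + 2)) - cu c2i‖ ≤ 2 / 10 ^ 6 := by
  have h1 := hq.Xc (4 * p + 1)
  have h2 := hq.Xc (4 * p + 2)
  have : (q.X (4 * p + 1) - q.X (4 * p + 2)) - cu c2i =
      (q.X (4 * p + 1) - cS (NX (4 * p + 1))) - (q.X (4 * p + 2) - cS (NX (4 * p + 2))) := by
    rw [← cS_S2, ← NX12 p, ← cS_sub]; ring
  rw [this]
  refine (norm_sub_le _ _).trans ?_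
  linarith

lemma z0c (p : ℕ) : ‖(q.X (4 * p + 2) - q.X (4 * p)) - cu Z0i‖ ≤ 2 / 10 ^ 6 := by
  have h1 := hq.Xc (4 * p)
  have h2 := hq.Xc (4 * p + 2)
  have : (q.X (4 * p + 2) - q.X (4 * p)) - cu Z0i =
      (q.X (4 * p + 2) - cS (NX (4 * p + 2))) - (q.X (4 * p) - cS (NX (4 * p))) := by
    rw [← cS_S2, ← NX02 p, ← cS_sub]; ring
  rw [this]
  refine (norm_sub_le _ _).trans ?_
  linarith

lemma y2c : ‖q.Y 2 - cu (Yo 2)‖ ≤ 1 / 10 ^ 6 := by
  have h := hq.Yc 2
  have : NY 2 = vm S2 (Yo 2) := by decide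
  rwa [this, cS_S2] at h

/-- the displacement of the primed nodes -/
lemma vpo_bd (p : ℕ) : ‖q.vpo (4 * p + 2) -
    (q.e (q.iend - (4 * p + 2)) : ℝ) * (10 * (I * (q.X (4 * p + 1) - q.X (4 * p + 2))))‖ ≤
    q.e (q.iend - (4 * p + 2)) / 10 ^ 6 := by
  set e := q.e (q.iend - (4 * p + 2)) with he
  have h0 : 0 < e := hq.epos _
  have h20 : e ≤ 1 / 10 ^ 20 := e_le hq _
  have hsq : e ^ 2 ≤ e / 10 ^ 20 := e_sq hq _
  have hx : 100 * e ^ 2 ≤ 1 := by
    have : e / 10 ^ 20 ≤ 1 / 100 := by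
      norm_num at h20 ⊢; linarith
    linarith
  have hb := sqrt_bd (x := 100 * e ^ 2) (by positivity) hx
  have : q.vpo (4 * p + 2) - (e : ℝ) * (10 * (I * (q.X (4 * p + 1) - q.X (4 * p + 2)))) =
      ((1 - Real.sqrt (1 - 100 * e ^ 2) : ℝ) : ℂ) * (q.X (4 * p + 1) - q.X (4 * p + 2)) := by
    simp only [Par.vpo, ← he, show 4 * p + 2 - 1 = 4 * p + 1 from rfl]
    push_cast
    ring
  rw [this, norm_mul, c2n hq, mul_one, Complex.norm_real, Real.norm_eq_abs, abs_of_nonneg]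
  · have : 100 * (e / 10 ^ 20) ≤ e / 10 ^ 6 := by norm_num; linarith
    linarith [hb.2]
  · have : 0 ≤ 100 * e ^ 2 / 2 := by positivity
    linarith [hb.1]

end steps

/-! ### tables -/

lemma dt_mul_l (a x y : ℂ) : dt (a * x) (a * y) = ‖a‖ ^ 2 * dt x y := by
  rw [← dt_self']; simp [dt]; ring

lemma tab_ma : ∀ j < 3, ∀ k < 6, k % 3 ≠ j →
    (decide (0 < idot (rt psii k) (mdir j)) = true → 1 / 50 ≤ dt (om ^ k) (I * om ^ j)) ∧
    (decide (0 < idot (rt psii k) (mdir j)) = false → dt (om ^ k) (I * om ^ j) ≤ -(1 / 50)) := by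
  intro j hj k hk hjk
  have h1 := s3lo
  have h2 := s3sq
  interval_cases j <;> interval_cases k <;>
    first
    | exact absurd rfl hjk
    | (refine ⟨fun h => ?_, fun h => ?_⟩ <;>
        first
        | exact absurd h (by decide)
        | (simp only [om0, om1, om2, om3, om4, om5]; simp [dt]; nlinarith))

lemma tab_ma0 : ∀ j < 3, ∀ k < 6, k % 3 = j → dt (om ^ k) (I * om ^ j) = 0 := by
  intro j hj k hk hjk
  have h2 := s3sq
  interval_cases j <;> interval_cases k <;>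
    first
    | exact absurd hjk (by decide)
    | (simp only [om0, om1, om2, om3, om4, om5]; simp [dt]; try ring_nf)

lemma S1R : (S1 : ℝ) = 320450000 := by norm_num [S1]

lemma tab_gpa : ∀ k < 6,
    (decide (0 < idot (rt psii k) vpi) = true → 1 / 10 ≤ dt (cu psii * om ^ k) (I * cu c2i)) ∧
    (decide (0 < idot (rt psii k) vpi) = false →
      dt (cu psii * om ^ k) (I * cu c2i) ≤ -(1 / 10)) := by
  intro k hk
  have h1 := s3lo
  have h3 := s3hi
  interval_cases k <;>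
    (refine ⟨fun h => ?_, fun h => ?_⟩ <;>
        first
        | exact absurd h (by decide)
        | (simp only [om0, om1, om2, om3, om4, om5]; simp [dt, cu, psii, c2i, S1R]; norm_num
           try nlinarith))

lemma tab_gpt : ∀ j < 3, 3 / 10 ≤ dt (cu (thi j)) (I * cu c2i) := by
  intro j hj
  interval_cases j <;> simp [dt, cu, thi, c2i, S1R] <;> norm_num

lemma tab_ghd : ∀ k < 6, 1 ≤ k →
    (decide (0 < idot (rt yi k) nui) = true → 1 / 40 ≤ dt (cu yi * om ^ k) (cu nui)) ∧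
    (decide (0 < idot (rt yi k) nui) = false →
      dt (cu yi * om ^ k) (cu nui) ≤ -(1 / 40)) := by
  intro k hk hk1
  have h1 := s3lo
  have h3 := s3hi
  interval_cases k <;>
    (refine ⟨fun h => ?_, fun h => ?_⟩ <;>
        first
        | exact absurd h (by decide)
        | (simp only [om0, om1, om2, om3, om4, om5]; simp [dt, cu, yi, nui, S1R]; norm_num
           try nlinarith))

lemma tab_gh : dt (cu yi) (cu nui) ≤ -(8 / 10) := by
  simp [dt, cu, yi, nui, S1R]; norm_num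

/-- nominal direction from `h i` to the primed node `(0, i+2)` -/
def Un : V2 := vs (vs Z0i (Yo 2)) yi

lemma tab_Un1 : 89 / 100 ≤ dt (cu Un) (I * cu c2i) := by
  simp [dt, cu, Un, vs, Yo, yi, c2i, Z0i, g0i, g1i, S1R]; norm_num

lemma tab_Un2 : 1 / 2 ≤ dt (cu Un) (cu nui) := by
  simp [dt, cu, Un, vs, Yo, yi, nui, Z0i, g0i, g1i, S1R]; norm_num

/-! ### the cases -/

section cases
variable {σ : ℕ → ℕ → Bool} {mB nL : ℕ} {q : Par} (hq : Cfg σ mB nL q)
include hq

omit hq in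
lemma nreal' (x : ℝ) (hx : 0 ≤ x) (z : ℂ) : ‖(x : ℂ) * z‖ = x * ‖z‖ := by
  rw [norm_mul, Complex.norm_real, Real.norm_eq_abs, abs_of_nonneg hx]

omit hq in
lemma ge2 (p : ℕ) : q.ge 0 (4 * p + 2) = q.e (q.iend - (4 * p + 2)) ^ 2 / 16 := by
  rw [Par.ge, if_pos ⟨rfl, by omega⟩]

/-- bounds of the radius of the wheel `a` -/
lemma rbd (n : ℕ) : Real.sqrt (1 - q.e n ^ 2 / 2) ≤ 1 - q.e n ^ 2 / 4 ∧
    1 - q.e n ^ 2 / 2 ≤ Real.sqrt (1 - q.e n ^ 2 / 2) := by
  have h0 := hq.epos n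
  have h1 := e_le hq n
  have h2 := e_sq hq n
  have := sqrt_bd (x := q.e n ^ 2 / 2) (by positivity) (by
    have : q.e n / 10 ^ 20 ≤ 1 := by norm_num at h1 ⊢; linarith
    linarith)
  exact ⟨by linarith [this.1], this.2⟩

lemma case_ga (p k : ℕ) (b : Bool) :
    ‖q.pos (.g 0 (4 * p + 2) b) - q.pos (.a (4 * p + 2) k)‖ ≤ 1 := by
  have hr := rbd hq (q.iend - (4 * p + 2))
  have h0 := hq.epos (q.iend - (4 * p + 2))
  set e := q.e (q.iend - (4 * p + 2)) with he
  have hg := ge2 (q := q) p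
  rw [← he] at hg
  have : q.pos (.g 0 (4 * p + 2) b) - q.pos (.a (4 * p + 2) k) =
      ((e ^ 2 / 16 : ℝ) : ℂ) * (Par.sg b * cu nui) -
        ((Real.sqrt (1 - e ^ 2 / 2) : ℝ) : ℂ) * (cu psii * om ^ k) := by
    simp only [Par.pos, hg, hq.Y0, ← he]
    ring
  rw [this]
  refine (norm_sub_le _ _).trans ?_
  rw [nreal' _ (by positivity), nreal' _ (Real.sqrt_nonneg _), norm_mul, norm_mul, nsg, nnu, npsi,
    nompow]
  nlinarith [hr.1]

lemma case_ma (p k j : ℕ) (hk : k < 6) (hj : j < 3) (v : Bool)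
    (hv : (if k % 3 = j then false else decide (0 < idot (rt psii k) (mdir j))) = v) :
    (v = true ↔ ‖q.pos (.m (4 * p + 2) j) - q.pos (.a (4 * p + 2) k)‖ ≤ 1) := by
  have hr := rbd hq (q.iend - (4 * p + 2))
  have h0 := hq.epos (q.iend - (4 * p + 2))
  have h20 := e_le hq (q.iend - (4 * p + 2))
  have hsq := e_sq hq (q.iend - (4 * p + 2))
  set e := q.e (q.iend - (4 * p + 2)) with he
  set r := Real.sqrt (1 - e ^ 2 / 2) with hrr
  by_cases hjk : k % 3 = j
  · rw [if_pos hjk] at hv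
    subst hv
    simp only [Bool.false_eq_true, false_iff, not_le]
    have h1 : q.pos (.m (4 * p + 2) j) - q.pos (.a (4 * p + 2) k) =
        cu psii * (((e : ℝ) : ℂ) * (I * om ^ j) + ((-r : ℝ) : ℂ) * om ^ k) := by
      simp only [Par.pos, ← he, ← hrr]
      push_cast
      ring
    have h2 := sq_norm_add (((-r : ℝ) : ℂ) * om ^ k) (((e : ℝ) : ℂ) * (I * om ^ j))
    have h3 : dt (((-r : ℝ) : ℂ) * om ^ k) (((e : ℝ) : ℂ) * (I * om ^ j)) =
        (-r) * e * dt (om ^ k) (I * om ^ j) := by simp [dt]; ring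
    rw [h3, tab_ma0 j hj k hk hjk, nreal' e h0.le, norm_mul, norm_mul, Complex.norm_real,
      Real.norm_eq_abs, abs_neg, abs_of_nonneg (Real.sqrt_nonneg _), nompow, nompow,
      Complex.norm_I, add_comm (((-r : ℝ) : ℂ) * om ^ k)] at h2
    have h4 : r ^ 2 = 1 - e ^ 2 / 2 := by
      apply Real.sq_sqrt
      have : e / 10 ^ 20 ≤ 1 := by norm_num at h20 ⊢; linarith
      linarith
    rw [h1, norm_mul, npsi, one_mul]
    have h5 : 0 < e ^ 2 := by positivity
    nlinarith [norm_nonneg (((e : ℝ) : ℂ) * (I * om ^ j) + ((-r : ℝ) : ℂ) * om ^ k)]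
  · rw [if_neg hjk] at hv
    have ht := tab_ma j hj k hk hjk
    rw [hv] at ht
    have h1 : q.pos (.m (4 * p + 2) j) - q.pos (.a (4 * p + 2) k) =
        -(cu psii * om ^ k) + (((1 - r : ℝ) : ℂ) * (cu psii * om ^ k) +
          ((e : ℝ) : ℂ) * (cu psii * (I * om ^ j))) := by
      simp only [Par.pos, ← he, ← hrr]
      push_cast
      ring
    have hdt : dt (-(cu psii * om ^ k)) (cu psii * (I * om ^ j)) = -dt (om ^ k) (I * om ^ j) := by
      rw [dt_neg_l, dt_mul_l, npsi]; ring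
    rw [h1]
    refine key (d := cu psii * (I * om ^ j)) (s := e) ?_ h0 (h20.trans (by norm_num)) ?_ ?_ ?_ ?_
    · rw [norm_neg, norm_mul, npsi, nompow, one_mul]
    · rw [norm_mul, norm_mul, npsi, nompow, Complex.norm_I]; norm_num
    · rw [add_sub_cancel_right, nreal' _ (by nlinarith [hr.1, sq_nonneg e]), norm_mul, npsi, nompow]
      have : e / 10 ^ 20 ≤ e / 1000 := by gcongr; norm_num
      linarith [hr.2]
    · intro h; rw [hdt]; linarith [ht.1 h]
    · intro h; rw [hdt]; linarith [ht.2 h]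

lemma case_aa (p k k' : ℕ) (h : k' = k + 1 ∨ (k = 0 ∧ k' = 5)) :
    ‖q.pos (.a (4 * p + 2) k) - q.pos (.a (4 * p + 2) k')‖ ≤ 1 := by
  have hr := rbd hq (q.iend - (4 * p + 2))
  have h0 := hq.epos (q.iend - (4 * p + 2))
  set e := q.e (q.iend - (4 * p + 2)) with he
  set r := Real.sqrt (1 - e ^ 2 / 2) with hrr
  have h1 : q.pos (.a (4 * p + 2) k) - q.pos (.a (4 * p + 2) k') =
      ((r : ℝ) : ℂ) * (cu psii * (om ^ k - om ^ k')) := by
    simp only [Par.pos, ← he, ← hrr]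
    ring
  have h2 : ‖om ^ k - om ^ k'‖ = 1 := by
    rcases h with h | ⟨h, h'⟩
    · subst h; rw [norm_sub_rev]; exact nomsub k
    · subst h; subst h'; rw [norm_sub_rev]; exact nom05
  rw [h1, nreal' _ (Real.sqrt_nonneg _), norm_mul, npsi, h2]
  nlinarith [hr.1, sq_nonneg e]

/-- norm of the displacement -/
lemma vpo_n (p : ℕ) : ‖q.vpo (4 * p + 2)‖ ≤ 11 * q.e (q.iend - (4 * p + 2)) := by
  have h := vpo_bd hq p
  have h0 := hq.epos (q.iend - (4 * p + 2))
  set e := q.e (q.iend - (4 * p + 2)) with he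
  have h2 : ‖((e : ℝ) : ℂ) * (10 * (I * (q.X (4 * p + 1) - q.X (4 * p + 2))))‖ = 10 * e := by
    rw [nreal' _ h0.le, norm_mul, norm_mul, c2n hq, Complex.norm_I]; norm_num; ring
  have h3 : q.vpo (4 * p + 2) = (q.vpo (4 * p + 2) - ((e : ℝ) : ℂ) *
      (10 * (I * (q.X (4 * p + 1) - q.X (4 * p + 2))))) + ((e : ℝ) : ℂ) *
        (10 * (I * (q.X (4 * p + 1) - q.X (4 * p + 2)))) := by ring
  rw [h3]
  refine (norm_add_le _ _).trans ?_
  rw [h2]
  have : e / 10 ^ 6 ≤ e := by norm_num; linarith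
  linarith

lemma dclose (p : ℕ) (U : ℂ) (hU : ‖U‖ = 1) :
    |dt U (I * (q.X (4 * p + 1) - q.X (4 * p + 2))) - dt U (I * cu c2i)| ≤ 2 / 10 ^ 6 := by
  have h := dt_close U U (I * (q.X (4 * p + 1) - q.X (4 * p + 2))) (I * cu c2i)
  rw [sub_self, norm_zero, zero_mul, zero_add, hU, one_mul, ← mul_sub, norm_mul, Complex.norm_I,
    one_mul] at h
  exact h.trans (c2c hq p)

lemma case_gpa (p k : ℕ) (hk : k < 6) (b v : Bool)
    (hv : decide (0 < idot (rt psii k) vpi) = v) :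
    (v = true ↔ ‖q.pos (.gp 0 (4 * p + 2) b) - q.pos (.a (4 * p + 2) k)‖ ≤ 1) := by
  have hr := rbd hq (q.iend - (4 * p + 2))
  have h0 := hq.epos (q.iend - (4 * p + 2))
  have h20 := e_le hq (q.iend - (4 * p + 2))
  have hsq := e_sq hq (q.iend - (4 * p + 2))
  have hvp := vpo_bd hq p
  have hs : q.e (q.iend + q.Lr + 0 + (4 * p + 2) + 4) ≤ q.e (q.iend - (4 * p + 2)) ^ 2 / 10 ^ 6 :=
    e_lt2 hq (by omega)
  have hs0 := hq.epos (q.iend + q.Lr + 0 + (4 * p + 2) + 4)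
  set e' := q.e (q.iend + q.Lr + 0 + (4 * p + 2) + 4) with he'
  set e := q.e (q.iend - (4 * p + 2)) with he
  set r := Real.sqrt (1 - e ^ 2 / 2) with hrr
  set c := q.X (4 * p + 1) - q.X (4 * p + 2) with hc
  have ht := tab_gpa k hk
  rw [hv] at ht
  have hd := dclose hq p (cu psii * om ^ k) (by rw [norm_mul, npsi, nompow, one_mul])
  rw [← hc, abs_le] at hd
  have h1 : q.pos (.gp 0 (4 * p + 2) b) - q.pos (.a (4 * p + 2) k) =
      -(cu psii * om ^ k) + (((1 - r : ℝ) : ℂ) * (cu psii * om ^ k) + q.vpo (4 * p + 2) +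
        ((e' : ℝ) : ℂ) * (Par.sg b * cu nui)) := by
    simp only [Par.pos, ← he, ← hrr, hq.Y0, ← he']
    push_cast
    ring
  have hdt : dt (-(cu psii * om ^ k)) (10 * (I * c)) = -10 * dt (cu psii * om ^ k) (I * c) := by
    have : (10 : ℂ) * (I * c) = ((10 : ℝ) : ℂ) * (I * c) := by norm_num
    rw [dt_neg_l, this, dt_smul_r]; ring
  rw [h1]
  refine key (d := 10 * (I * c)) (s := e) ?_ h0 (h20.trans (by norm_num)) ?_ ?_ ?_ ?_
  · rw [norm_neg, norm_mul, npsi, nompow, one_mul]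
  · rw [norm_mul, norm_mul, c2n hq, Complex.norm_I]; norm_num
  · have : ((1 - r : ℝ) : ℂ) * (cu psii * om ^ k) + q.vpo (4 * p + 2) +
        ((e' : ℝ) : ℂ) * (Par.sg b * cu nui) - (e : ℂ) * (10 * (I * c)) =
        ((1 - r : ℝ) : ℂ) * (cu psii * om ^ k) + (q.vpo (4 * p + 2) - (e : ℂ) * (10 * (I * c))) +
        ((e' : ℝ) : ℂ) * (Par.sg b * cu nui) := by ring
    rw [this]
    refine (norm_add₃_le).trans ?_
    rw [nreal' _ (by nlinarith [hr.1, sq_nonneg e]), nreal' _ hs0.le, norm_mul, norm_mul, npsi,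
      nompow, nsg, nnu]
    have h3 : e / 10 ^ 20 ≤ e / 10 ^ 6 := by gcongr <;> norm_num
    have h4 : e ^ 2 / 10 ^ 6 ≤ e ^ 2 := by
      have : 0 ≤ e ^ 2 := by positivity
      norm_num; linarith
    have h5 : 3 * (e / 10 ^ 6) ≤ e / 1000 := by norm_num; linarith
    linarith [hr.2]
  · intro h; rw [hdt]; linarith [ht.1 h]
  · intro h; rw [hdt]; linarith [ht.2 h]

lemma case_gt (p j : ℕ) (b : Bool) :
    ¬ ‖q.pos (.g 0 (4 * p + 2) b) - q.pos (.t (4 * p + 2) j)‖ ≤ 1 := by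
  have h0 := hq.epos (q.iend - (4 * p + 2))
  have h20 := e_le hq (q.iend - (4 * p + 2))
  have hsq := e_sq hq (q.iend - (4 * p + 2))
  set e := q.e (q.iend - (4 * p + 2)) with he
  have hg := ge2 (q := q) p
  rw [← he] at hg
  have : q.pos (.g 0 (4 * p + 2) b) - q.pos (.t (4 * p + 2) j) =
      ((e ^ 2 / 16 : ℝ) : ℂ) * (Par.sg b * cu nui) -
        ((1 + 2 * e : ℝ) : ℂ) * cu (thi j) := by
    simp only [Par.pos, hg, hq.Y0, ← he]
    ring
  rw [this, norm_sub_rev]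
  have h1 := norm_sub_norm_le (((1 + 2 * e : ℝ) : ℂ) * cu (thi j))
    (((e ^ 2 / 16 : ℝ) : ℂ) * (Par.sg b * cu nui))
  rw [nreal' _ (by positivity), nreal' _ (by positivity), norm_mul, nsg, nnu, nth] at h1
  have h3 : e / 10 ^ 20 ≤ e := by norm_num; linarith
  intro h
  linarith

lemma case_mt (p j j' : ℕ) :
    ¬ ‖q.pos (.m (4 * p + 2) j) - q.pos (.t (4 * p + 2) j')‖ ≤ 1 := by
  have h0 := hq.epos (q.iend - (4 * p + 2))
  set e := q.e (q.iend - (4 * p + 2)) with he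
  have : q.pos (.m (4 * p + 2) j) - q.pos (.t (4 * p + 2) j') =
      ((e : ℝ) : ℂ) * (I * cu psii * om ^ j) -
        ((1 + 2 * e : ℝ) : ℂ) * cu (thi j') := by
    simp only [Par.pos, ← he]
    ring
  rw [this, norm_sub_rev]
  have h1 := norm_sub_norm_le (((1 + 2 * e : ℝ) : ℂ) * cu (thi j'))
    (((e : ℝ) : ℂ) * (I * cu psii * om ^ j))
  rw [nreal' _ (by positivity), nreal' _ (by positivity), norm_mul, norm_mul, npsi, nth,
    Complex.norm_I, nompow] at h1
  intro h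
  linarith

lemma case_gpt (p j : ℕ) (hj : j < 3) (b : Bool) :
    ‖q.pos (.gp 0 (4 * p + 2) b) - q.pos (.t (4 * p + 2) j)‖ ≤ 1 := by
  have h0 := hq.epos (q.iend - (4 * p + 2))
  have h20 := e_le hq (q.iend - (4 * p + 2))
  have hsq := e_sq hq (q.iend - (4 * p + 2))
  have hvp := vpo_bd hq p
  have hs : q.e (q.iend + q.Lr + 0 + (4 * p + 2) + 4) ≤ q.e (q.iend - (4 * p + 2)) ^ 2 / 10 ^ 6 :=
    e_lt2 hq (by omega)
  have hs0 := hq.epos (q.iend + q.Lr + 0 + (4 * p + 2) + 4)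
  set e' := q.e (q.iend + q.Lr + 0 + (4 * p + 2) + 4) with he'
  set e := q.e (q.iend - (4 * p + 2)) with he
  set c := q.X (4 * p + 1) - q.X (4 * p + 2) with hc
  have ht := tab_gpt j hj
  have hd := dclose hq p (cu (thi j)) (nth j)
  rw [← hc, abs_le] at hd
  have h1 : q.pos (.gp 0 (4 * p + 2) b) - q.pos (.t (4 * p + 2) j) =
      -(cu (thi j)) + (((e : ℝ) : ℂ) * (-2 * cu (thi j)) + q.vpo (4 * p + 2) +
        ((e' : ℝ) : ℂ) * (Par.sg b * cu nui)) := by
    simp only [Par.pos, ← he, hq.Y0, ← he']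
    push_cast
    ring
  have hdt : dt (-(cu (thi j))) (-2 * cu (thi j) + 10 * (I * c)) =
      2 - 10 * dt (cu (thi j)) (I * c) := by
    have h2 : dt (cu (thi j)) (cu (thi j)) = 1 := by rw [dt_self', nth]; norm_num
    have : (-2 : ℂ) * cu (thi j) + (10 : ℂ) * (I * c) =
      ((-2 : ℝ) : ℂ) * cu (thi j) + ((10 : ℝ) : ℂ) * (I * c) := by norm_num
    rw [dt_neg_l, this, dt_add_r, dt_smul_r, dt_smul_r, h2]; ring
  rw [h1]
  refine (key (b := true) (d := -2 * cu (thi j) + 10 * (I * c)) (s := e) ?_ h0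
    (h20.trans (by norm_num)) ?_ ?_ ?_ ?_).1 rfl
  · rw [norm_neg, nth]
  · refine (norm_add_le _ _).trans ?_
    rw [norm_mul, norm_mul, norm_mul, nth, c2n hq, Complex.norm_I]; norm_num
  · have : ((e : ℝ) : ℂ) * (-2 * cu (thi j)) + q.vpo (4 * p + 2) +
        ((e' : ℝ) : ℂ) * (Par.sg b * cu nui) - (e : ℂ) * (-2 * cu (thi j) + 10 * (I * c)) =
        (q.vpo (4 * p + 2) - (e : ℂ) * (10 * (I * c))) +
        ((e' : ℝ) : ℂ) * (Par.sg b * cu nui) := by ring
    rw [this]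
    refine (norm_add_le _ _).trans ?_
    rw [nreal' _ hs0.le, norm_mul, nsg, nnu]
    have h3 : e / 10 ^ 20 ≤ e / 10 ^ 6 := by gcongr <;> norm_num
    have h4 : e ^ 2 / 10 ^ 6 ≤ e ^ 2 := by
      have : 0 ≤ e ^ 2 := by positivity
      norm_num; linarith
    have h5 : 3 * (e / 10 ^ 6) ≤ e / 1000 := by norm_num; linarith
    linarith
  · intro h; rw [hdt]; linarith
  · intro h; exact absurd h (by decide)

omit hq in
lemma cu_sub (a b : V2) : cu (vs a b) = cu a - cu b := by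
  apply Complex.ext <;> simp [cu, vs] <;> ring

/-- the unit vector from `h` to the primed node -/
noncomputable def UU (q : Par) (p : ℕ) : ℂ :=
  q.X (4 * p + 2) + q.vpo (4 * p + 2) - (q.X (4 * p) + q.Y 2 + q.yv (4 * p))

lemma UUn (p : ℕ) (hp : 4 * p + 2 ≤ irOf mB) : ‖UU q p‖ = 1 := by
  have h := (hq.yu (4 * p) (by omega) hp).2.1
  rw [norm_sub_rev] at h
  exact h

lemma UUc (p : ℕ) (hp : 4 * p + 2 ≤ irOf mB) : ‖UU q p - cu Un‖ ≤ 5 / 10 ^ 4 := by
  have h1 := (hq.yu (4 * p) (by omega) hp).2.2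
  have h2 := z0c hq p
  have h3 := y2c hq
  have h4 := vpo_n hq p
  have h5 := e_le hq (q.iend - (4 * p + 2))
  have : UU q p - cu Un = (q.X (4 * p + 2) - q.X (4 * p) - cu Z0i) + q.vpo (4 * p + 2) -
      (q.Y 2 - cu (Yo 2)) - (q.yv (4 * p) - cu yi) := by
    rw [Un, cu_sub, cu_sub, UU]; ring
  rw [this]
  refine (norm_sub_le _ _).trans ?_
  refine (add_le_add (norm_sub_le _ _) le_rfl).trans ?_
  refine (add_le_add (add_le_add (norm_add_le _ _) le_rfl) le_rfl).trans ?_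
  have : 11 * (1 / 10 ^ 20 : ℝ) ≤ 1 / 10 ^ 5 := by norm_num
  norm_num at *
  linarith

lemma rk2 (p : ℕ) : q.iend < q.rk 2 (4 * p) ∧ q.rk 2 (4 * p) < q.iend + q.Lr + 4 * p + 4 ∧
    q.ge 2 (4 * p) = q.e (q.rk 2 (4 * p)) := by
  refine ⟨?_, ?_, ?_⟩
  · rw [Par.rk, if_neg (by norm_num)]
    split_ifs <;> omega
  · rw [Par.rk, if_neg (by norm_num)]
    split_ifs with h <;> omega
  · rw [Par.ge, if_neg (by norm_num)]

lemma case_g2h (p : ℕ) (hp : 4 * p + 2 ≤ irOf mB) (b b' v : Bool) (hv : pol b yi = v) :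
    (v = true ↔ ‖q.pos (.g 2 (4 * p) b) - q.pos (.h (4 * p) b')‖ ≤ 1) := by
  obtain ⟨_, hr2, hr3⟩ := rk2 hq p
  have h0 := hq.epos (q.rk 2 (4 * p))
  have h20 := e_le hq (q.rk 2 (4 * p))
  have hsq := e_sq hq (q.rk 2 (4 * p))
  have hs := e_lt2 hq hr2
  have hs0 := hq.epos (q.iend + q.Lr + 4 * p + 4)
  obtain ⟨hy1, _, hy3⟩ := hq.yu (4 * p) (by omega) hp
  set e := q.e (q.rk 2 (4 * p)) with he
  set e' := q.e (q.iend + q.Lr + 4 * p + 4) with he'
  have h1 : q.pos (.g 2 (4 * p) b) - q.pos (.h (4 * p) b') =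
      -(q.yv (4 * p)) + (((e : ℝ) : ℂ) * (Par.sg b * cu nui) -
        ((e' : ℝ) : ℂ) * (Par.sg b' * cu nui)) := by
    simp only [Par.pos, ← he', hr3]
    ring
  have hdt := dt_close (q.yv (4 * p)) (cu yi) (cu nui) (cu nui)
  rw [sub_self, norm_zero, mul_zero, add_zero, nnu, mul_one] at hdt
  have hdt2 := abs_le.1 (hdt.trans hy3)
  have ht := tab_gh
  have hpol : decide (0 < idot yi nui) = false := by decide
  have hb : v = !b := by
    rw [← hv, pol, hpol]; cases b <;> rfl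
  have hsgt : dt (-q.yv (4 * p)) (Par.sg true * cu nui) = -dt (q.yv (4 * p)) (cu nui) := by
    simp [Par.sg, dt_neg_l]
  have hsgf : dt (-q.yv (4 * p)) (Par.sg false * cu nui) = dt (q.yv (4 * p)) (cu nui) := by
    simp [Par.sg, dt_neg_l, dt_neg_r]
  rw [h1]
  refine key (d := Par.sg b * cu nui) (s := e) ?_ h0 (h20.trans (by norm_num)) ?_ ?_ ?_ ?_
  · rw [norm_neg, hy1]
  · rw [norm_mul, nsg, nnu]; norm_num
  · rw [sub_sub_cancel_left, norm_neg, nreal' _ hs0.le, norm_mul, nsg, nnu]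
    have h3 : e / 10 ^ 20 ≤ e / 1000 := by gcongr; norm_num
    have h4 : e ^ 2 / 10 ^ 6 ≤ e ^ 2 := by
      have : 0 ≤ e ^ 2 := by positivity
      norm_num; linarith
    linarith
  · intro h
    have : b = false := by
      rw [h] at hb
      cases b with
      | false => rfl
      | true => exact absurd hb (by decide)
    subst this
    rw [hsgf]; norm_num at *; linarith
  · intro h
    have : b = true := by
      rw [h] at hb
      cases b with
      | true => rfl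
      | false => exact absurd hb (by decide)
    subst this
    rw [hsgt]; norm_num at *; linarith

lemma case_g0h (p : ℕ) (hp : 4 * p + 2 ≤ irOf mB) (b b' : Bool) :
    ‖q.pos (.g 0 (4 * p + 2) b) - q.pos (.h (4 * p) b')‖ ≤ 1 := by
  have h0 := hq.epos (q.iend - (4 * p + 2))
  have h20 := e_le hq (q.iend - (4 * p + 2))
  have hsq := e_sq hq (q.iend - (4 * p + 2))
  have hvp := vpo_bd hq p
  have hs : q.e (q.iend + q.Lr + 4 * p + 4) ≤ q.e (q.iend - (4 * p + 2)) ^ 2 / 10 ^ 6 :=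
    e_lt2 hq (by omega)
  have hs0 := hq.epos (q.iend + q.Lr + 4 * p + 4)
  have hg := ge2 (q := q) p
  set e' := q.e (q.iend + q.Lr + 4 * p + 4) with he'
  set e := q.e (q.iend - (4 * p + 2)) with he
  set c := q.X (4 * p + 1) - q.X (4 * p + 2) with hc
  have hU := UUn hq p hp
  have hd := dclose hq p (UU q p) hU
  have hd2 := dt_close (UU q p) (cu Un) (I * cu c2i) (I * cu c2i)
  have hI : ‖I * cu c2i‖ ≤ 2 := by
    have h1 := c2c hq p
    rw [← hc] at h1
    have h2 : cu c2i = c - (c - cu c2i) := by ring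
    have h3 := norm_sub_le c (c - cu c2i)
    rw [← h2] at h3
    have h4 : ‖c‖ = 1 := c2n hq p
    rw [norm_mul, Complex.norm_I, one_mul]
    norm_num at *; linarith
  rw [sub_self (I * cu c2i), norm_zero, mul_zero, add_zero] at hd2
  have hd3 : ‖UU q p - cu Un‖ * ‖I * cu c2i‖ ≤ 5 / 10 ^ 4 * 2 := by
    gcongr
    exact UUc hq p hp
  have hd4 := abs_le.1 (hd2.trans hd3)
  rw [← hc, abs_le] at hd
  have ht := tab_Un1
  have h1 : q.pos (.g 0 (4 * p + 2) b) - q.pos (.h (4 * p) b') =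
      UU q p + (((e ^ 2 / 16 : ℝ) : ℂ) * (Par.sg b * cu nui) -
        ((e' : ℝ) : ℂ) * (Par.sg b' * cu nui) - q.vpo (4 * p + 2)) := by
    simp only [Par.pos, ← he', hg, UU, hq.Y0]
    ring
  have hdt : dt (UU q p) (-(10 * (I * c))) = -10 * dt (UU q p) (I * c) := by
    have : (10 : ℂ) * (I * c) = ((10 : ℝ) : ℂ) * (I * c) := by norm_num
    rw [dt_neg_r, this, dt_smul_r]; ring
  rw [h1]
  refine (key (b := true) (d := -(10 * (I * c))) (s := e) hU h0
    (h20.trans (by norm_num)) ?_ ?_ ?_ ?_).1 rfl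
  · rw [norm_neg, norm_mul, norm_mul, c2n hq, Complex.norm_I]; norm_num
  · have : ((e ^ 2 / 16 : ℝ) : ℂ) * (Par.sg b * cu nui) -
        ((e' : ℝ) : ℂ) * (Par.sg b' * cu nui) - q.vpo (4 * p + 2) - (e : ℂ) * (-(10 * (I * c))) =
        ((e ^ 2 / 16 : ℝ) : ℂ) * (Par.sg b * cu nui) +
        (-(((e' : ℝ) : ℂ) * (Par.sg b' * cu nui))) +
        (-(q.vpo (4 * p + 2) - (e : ℂ) * (10 * (I * c)))) := by ring
    rw [this]
    refine (norm_add₃_le).trans ?_
    rw [norm_neg, norm_neg, nreal' _ hs0.le, nreal' _ (by positivity), norm_mul, norm_mul, nsg,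
      nsg, nnu]
    have h3 : e / 10 ^ 20 ≤ e / 10 ^ 6 := by gcongr <;> norm_num
    have h4 : e ^ 2 / 10 ^ 6 ≤ e ^ 2 := by
      have : 0 ≤ e ^ 2 := by positivity
      norm_num; linarith
    have h5 : 3 * (e / 10 ^ 6) ≤ e / 1000 := by norm_num; linarith
    linarith
  · intro h; rw [hdt]; norm_num at *; linarith
  · intro h; exact absurd h (by decide)

lemma case_mh (p j : ℕ) (hp : 4 * p + 2 ≤ irOf mB) (b' : Bool) :
    ‖q.pos (.m (4 * p + 2) j) - q.pos (.h (4 * p) b')‖ ≤ 1 := by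
  have h0 := hq.epos (q.iend - (4 * p + 2))
  have h20 := e_le hq (q.iend - (4 * p + 2))
  have hsq := e_sq hq (q.iend - (4 * p + 2))
  have hvp := vpo_bd hq p
  have hs : q.e (q.iend + q.Lr + 4 * p + 4) ≤ q.e (q.iend - (4 * p + 2)) ^ 2 / 10 ^ 6 :=
    e_lt2 hq (by omega)
  have hs0 := hq.epos (q.iend + q.Lr + 4 * p + 4)
  set e' := q.e (q.iend + q.Lr + 4 * p + 4) with he'
  set e := q.e (q.iend - (4 * p + 2)) with he
  set c := q.X (4 * p + 1) - q.X (4 * p + 2) with hc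
  have hU := UUn hq p hp
  have hd := dclose hq p (UU q p) hU
  have hd2 := dt_close (UU q p) (cu Un) (I * cu c2i) (I * cu c2i)
  have hI : ‖I * cu c2i‖ ≤ 2 := by
    have h1 := c2c hq p
    rw [← hc] at h1
    have h2 : cu c2i = c - (c - cu c2i) := by ring
    have h3 := norm_sub_le c (c - cu c2i)
    rw [← h2] at h3
    have h4 : ‖c‖ = 1 := c2n hq p
    rw [norm_mul, Complex.norm_I, one_mul]
    norm_num at *; linarith
  rw [sub_self (I * cu c2i), norm_zero, mul_zero, add_zero] at hd2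
  have hd3 : ‖UU q p - cu Un‖ * ‖I * cu c2i‖ ≤ 5 / 10 ^ 4 * 2 := by
    gcongr
    exact UUc hq p hp
  have hd4 := abs_le.1 (hd2.trans hd3)
  rw [← hc, abs_le] at hd
  have ht := tab_Un1
  have hψ : ‖I * cu psii * om ^ j‖ = 1 := by
    rw [norm_mul, norm_mul, npsi, nompow, Complex.norm_I]; norm_num
  have h1 : q.pos (.m (4 * p + 2) j) - q.pos (.h (4 * p) b') =
      UU q p + (((e : ℝ) : ℂ) * (I * cu psii * om ^ j) -
        ((e' : ℝ) : ℂ) * (Par.sg b' * cu nui) - q.vpo (4 * p + 2)) := by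
    simp only [Par.pos, ← he', ← he, UU]
    ring
  have hdt : dt (UU q p) (-(10 * (I * c)) + I * cu psii * om ^ j) =
      -10 * dt (UU q p) (I * c) + dt (UU q p) (I * cu psii * om ^ j) := by
    have : (10 : ℂ) * (I * c) = ((10 : ℝ) : ℂ) * (I * c) := by norm_num
    rw [dt_add_r, dt_neg_r, this, dt_smul_r]; ring
  have hψd := abs_dt_le (UU q p) (I * cu psii * om ^ j)
  rw [hψ, hU, mul_one, abs_le] at hψd
  rw [h1]
  refine (key (b := true) (d := -(10 * (I * c)) + I * cu psii * om ^ j) (s := e) hU h0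
    (h20.trans (by norm_num)) ?_ ?_ ?_ ?_).1 rfl
  · refine (norm_add_le _ _).trans ?_
    rw [hψ, norm_neg, norm_mul, norm_mul, c2n hq, Complex.norm_I]; norm_num
  · have : ((e : ℝ) : ℂ) * (I * cu psii * om ^ j) -
        ((e' : ℝ) : ℂ) * (Par.sg b' * cu nui) - q.vpo (4 * p + 2) -
          (e : ℂ) * (-(10 * (I * c)) + I * cu psii * om ^ j) =
        (-(((e' : ℝ) : ℂ) * (Par.sg b' * cu nui))) +
        (-(q.vpo (4 * p + 2) - (e : ℂ) * (10 * (I * c)))) := by ring
    rw [this]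
    refine (norm_add_le _ _).trans ?_
    rw [norm_neg, norm_neg, nreal' _ hs0.le, norm_mul, nsg, nnu]
    have h3 : e / 10 ^ 20 ≤ e / 10 ^ 6 := by gcongr <;> norm_num
    have h4 : e ^ 2 / 10 ^ 6 ≤ e ^ 2 := by
      have : 0 ≤ e ^ 2 := by positivity
      norm_num; linarith
    have h5 : 3 * (e / 10 ^ 6) ≤ e / 1000 := by norm_num; linarith
    linarith
  · intro h; rw [hdt]; norm_num at *; linarith
  · intro h; exact absurd h (by decide)

lemma case_gph (p : ℕ) (hp : 4 * p + 2 ≤ irOf mB) (b b' v : Bool)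
    (hv : pol b' (vs (vs Z0i (Yo 2)) yi) = v) :
    (v = true ↔ ‖q.pos (.gp 0 (4 * p + 2) b) - q.pos (.h (4 * p) b')‖ ≤ 1) := by
  have h0 := hq.epos (q.iend + q.Lr + 4 * p + 4)
  have h20 := e_le hq (q.iend + q.Lr + 4 * p + 4)
  have hsq := e_sq hq (q.iend + q.Lr + 4 * p + 4)
  have hs : q.e (q.iend + q.Lr + 0 + (4 * p + 2) + 4) ≤ q.e (q.iend + q.Lr + 4 * p + 4) ^ 2 / 10 ^ 6 :=
    e_lt2 hq (by omega)
  have hs0 := hq.epos (q.iend + q.Lr + 0 + (4 * p + 2) + 4)
  set e' := q.e (q.iend + q.Lr + 0 + (4 * p + 2) + 4) with he'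
  set e := q.e (q.iend + q.Lr + 4 * p + 4) with he
  have hU := UUn hq p hp
  have hd2 := dt_close (UU q p) (cu Un) (cu nui) (cu nui)
  rw [sub_self (cu nui), norm_zero, mul_zero, add_zero, nnu, mul_one] at hd2
  have hd3 := abs_le.1 (hd2.trans (UUc hq p hp))
  have ht := tab_Un2
  have h1 : q.pos (.gp 0 (4 * p + 2) b) - q.pos (.h (4 * p) b') =
      UU q p + (((e : ℝ) : ℂ) * (-(Par.sg b' * cu nui)) +
        ((e' : ℝ) : ℂ) * (Par.sg b * cu nui)) := by
    simp only [Par.pos, ← he', ← he, UU, hq.Y0]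
    ring
  have hpol : decide (0 < idot (vs (vs Z0i (Yo 2)) yi) nui) = true := by decide
  have hb : v = b' := by
    rw [← hv, pol, hpol]; cases b' <;> rfl
  have hsgt : dt (UU q p) (-(Par.sg true * cu nui)) = -dt (UU q p) (cu nui) := by
    simp [Par.sg, dt_neg_r]
  have hsgf : dt (UU q p) (-(Par.sg false * cu nui)) = dt (UU q p) (cu nui) := by
    simp [Par.sg]
  rw [h1]
  refine key (d := -(Par.sg b' * cu nui)) (s := e) hU h0 (h20.trans (by norm_num)) ?_ ?_ ?_ ?_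
  · rw [norm_neg, norm_mul, nsg, nnu]; norm_num
  · rw [add_sub_cancel_left, nreal' _ hs0.le, norm_mul, nsg, nnu]
    have h3 : e / 10 ^ 20 ≤ e / 1000 := by gcongr; norm_num
    have h4 : e ^ 2 / 10 ^ 6 ≤ e ^ 2 := by
      have : 0 ≤ e ^ 2 := by positivity
      norm_num; linarith
    linarith
  · intro h
    rw [← hb, h, hsgt]; norm_num at *; linarith
  · intro h
    rw [← hb, h, hsgf]; norm_num at *; linarith

lemma case_ghd (p k : ℕ) (hp : 4 * p + 2 ≤ irOf mB) (hk : k < 6) (hk1 : 1 ≤ k) (b v : Bool)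
    (hv : pol b (rt yi k) = v) :
    (v = true ↔ ‖q.pos (.g 2 (4 * p) b) - q.pos (.hd (4 * p) k)‖ ≤ 1) := by
  obtain ⟨_, hr2, hr3⟩ := rk2 hq p
  have h0 := hq.epos (q.rk 2 (4 * p))
  have h20 := e_le hq (q.rk 2 (4 * p))
  have hsq := e_sq hq (q.rk 2 (4 * p))
  obtain ⟨hy1, _, hy3⟩ := hq.yu (4 * p) (by omega) hp
  set e := q.e (q.rk 2 (4 * p)) with he
  have h1 : q.pos (.g 2 (4 * p) b) - q.pos (.hd (4 * p) k) =
      -(q.yv (4 * p) * om ^ k) + (((e : ℝ) : ℂ) * (Par.sg b * cu nui) +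
        ((e ^ 2 : ℝ) : ℂ) * (q.yv (4 * p) * om ^ k)) := by
    simp only [Par.pos, hr3, ← he]
    push_cast
    ring
  have hdt := dt_close (q.yv (4 * p) * om ^ k) (cu yi * om ^ k) (cu nui) (cu nui)
  rw [sub_self (cu nui), norm_zero, mul_zero, add_zero, nnu, mul_one, ← sub_mul, norm_mul,
    nompow, mul_one] at hdt
  have hdt2 := abs_le.1 (hdt.trans hy3)
  have ht := tab_ghd k hk hk1
  have hsgt : dt (-(q.yv (4 * p) * om ^ k)) (Par.sg true * cu nui) =
      -dt (q.yv (4 * p) * om ^ k) (cu nui) := by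
    simp [Par.sg, dt_neg_l]
  have hsgf : dt (-(q.yv (4 * p) * om ^ k)) (Par.sg false * cu nui) =
      dt (q.yv (4 * p) * om ^ k) (cu nui) := by
    simp [Par.sg, dt_neg_l, dt_neg_r]
  rw [h1]
  refine key (d := Par.sg b * cu nui) (s := e) ?_ h0 (h20.trans (by norm_num)) ?_ ?_ ?_ ?_
  · rw [norm_neg, norm_mul, hy1, nompow, one_mul]
  · rw [norm_mul, nsg, nnu]; norm_num
  · rw [add_sub_cancel_left, nreal' _ (by positivity), norm_mul, hy1, nompow]
    have h3 : e / 10 ^ 20 ≤ e / 1000 := by gcongr; norm_num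
    linarith
  · intro h
    rw [h, pol] at hv
    cases b with
    | true =>
      rw [hsgt]
      have := ht.1 (by simpa using hv)
      norm_num at *; linarith
    | false =>
      rw [hsgf]
      have := ht.2 (by simpa using hv)
      norm_num at *; linarith
  · intro h
    rw [h, pol] at hv
    cases b with
    | true =>
      rw [hsgt]
      have := ht.2 (by simpa using hv)
      norm_num at *; linarith
    | false =>
      rw [hsgf]
      have := ht.1 (by simpa using hv)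
      norm_num at *; linarith

lemma nker (k : ℕ) (hk : k = 1 ∨ k = 5) (r : ℝ) :
    ‖1 - (r : ℂ) * om ^ k‖ ^ 2 = 1 - r + r ^ 2 := by
  rw [← dt_self']
  rcases hk with rfl | rfl
  · rw [om1]; simp [dt]; nlinarith [s3sq]
  · rw [om5]; simp [dt]; nlinarith [s3sq]

lemma case_hhd (p k : ℕ) (hp : 4 * p + 2 ≤ irOf mB) (hk : k = 1 ∨ k = 5) (b : Bool) :
    ‖q.pos (.h (4 * p) b) - q.pos (.hd (4 * p) k)‖ ≤ 1 := by
  obtain ⟨_, hr2, hr3⟩ := rk2 hq p
  have h0 := hq.epos (q.rk 2 (4 * p))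
  have h20 := e_le hq (q.rk 2 (4 * p))
  have hsq := e_sq hq (q.rk 2 (4 * p))
  have hs := e_lt hq hr2
  have hs0 := hq.epos (q.iend + q.Lr + 4 * p + 4)
  obtain ⟨hy1, _, hy3⟩ := hq.yu (4 * p) (by omega) hp
  set e := q.e (q.rk 2 (4 * p)) with he
  set e' := q.e (q.iend + q.Lr + 4 * p + 4) with he'
  have h1 : q.pos (.h (4 * p) b) - q.pos (.hd (4 * p) k) =
      q.yv (4 * p) * (1 - ((1 - e ^ 2 : ℝ) : ℂ) * om ^ k) +
        ((e' : ℝ) : ℂ) * (Par.sg b * cu nui) := by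
    simp only [Par.pos, ← he', ← he]
    push_cast
    ring
  rw [h1]
  refine (norm_add_le _ _).trans ?_
  rw [norm_mul, hy1, one_mul, nreal' _ hs0.le, norm_mul, nsg, nnu]
  have h2 := nker hq k hk (1 - e ^ 2)
  set N := ‖1 - ((1 - e ^ 2 : ℝ) : ℂ) * om ^ k‖ with hN
  have hN0 : 0 ≤ N := norm_nonneg _
  have hκ : 0 < e ^ 2 := by positivity
  have hκ1 : e ^ 2 ≤ 1 / 100 := by
    have : e / 10 ^ 20 ≤ 1 / 100 := by norm_num at h20 ⊢; linarith
    linarith
  have h3 : N ≤ 1 - e ^ 2 / 4 := by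
    have : N ^ 2 ≤ (1 - e ^ 2 / 4) ^ 2 := by nlinarith
    nlinarith
  have h4 : e ^ 4 / 10 ^ 6 ≤ e ^ 2 / 4 := by
    have : e ^ 4 = e ^ 2 * e ^ 2 := by ring
    have h5 : e ^ 2 * e ^ 2 ≤ e ^ 2 * (1 / 100) := by gcongr
    norm_num at *; nlinarith
  linarith

lemma case_hdhd (p k : ℕ) (hp : 4 * p + 2 ≤ irOf mB) :
    ‖q.pos (.hd (4 * p) k) - q.pos (.hd (4 * p) (k + 1))‖ ≤ 1 := by
  have h0 := hq.epos (q.rk 2 (4 * p))
  have h20 := e_le hq (q.rk 2 (4 * p))
  have hsq := e_sq hq (q.rk 2 (4 * p))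
  obtain ⟨hy1, _, hy3⟩ := hq.yu (4 * p) (by omega) hp
  set e := q.e (q.rk 2 (4 * p)) with he
  have h1 : q.pos (.hd (4 * p) k) - q.pos (.hd (4 * p) (k + 1)) =
      ((1 - e ^ 2 : ℝ) : ℂ) * (q.yv (4 * p) * (om ^ k - om ^ (k + 1))) := by
    simp only [Par.pos, ← he]
    push_cast
    ring
  have h3 : e / 10 ^ 20 ≤ 1 := by norm_num at h20 ⊢; linarith
  rw [h1, nreal' _ (by linarith), norm_mul, hy1, norm_sub_rev, nomsub]
  nlinarith [sq_nonneg e]

end cases

/-- **C5c.** -/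
theorem C5c : S_C5c := by
  intro σ mB nL q hq x y hK hx hy v hr
  cases y with
  | a i' k =>
    obtain ⟨hi4, _, hk⟩ := hy
    obtain ⟨p, rfl⟩ : ∃ p, i' = 4 * p + 2 := ⟨i' / 4, by omega⟩
    cases x with
    | g l i b =>
      simp only [rule] at hr
      split_ifs at hr with h
      obtain ⟨rfl, rfl⟩ := h
      have hv : true = v := by simpa using hr
      subst hv
      simp only [true_iff]
      exact case_ga hq p k b
    | gp l i b =>
      simp only [rule] at hr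
      split_ifs at hr with h
      obtain ⟨rfl, rfl⟩ := h
      exact case_gpa hq p k hk b v (by simpa using hr)
    | m i j =>
      simp only [rule] at hr
      split_ifs at hr with h h'
      · subst h
        exact case_ma hq p k j hk hx.2.2 v (by rw [if_pos h']; simpa using hr)
      · subst h
        exact case_ma hq p k j hk hx.2.2 v (by rw [if_neg h']; simpa using hr)
    | a i k' =>
      simp only [rule] at hr
      split_ifs at hr with h
      obtain ⟨rfl, h⟩ := h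
      have hv : true = v := by simpa using hr
      subst hv
      simp only [true_iff]
      exact case_aa hq p k' k h
    | _ => simp [rule] at hr
  | t i' j =>
    obtain ⟨hi4, _, hj⟩ := hy
    obtain ⟨p, rfl⟩ : ∃ p, i' = 4 * p + 2 := ⟨i' / 4, by omega⟩
    cases x with
    | g l i b =>
      simp only [rule] at hr
      split_ifs at hr with h
      obtain ⟨rfl, rfl⟩ := h
      have hv : false = v := by simpa using hr
      subst hv
      simp only [Bool.false_eq_true, false_iff]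
      exact case_gt hq p j b
    | gp l i b =>
      simp only [rule] at hr
      split_ifs at hr with h
      obtain ⟨rfl, rfl⟩ := h
      have hv : true = v := by simpa using hr
      subst hv
      simp only [true_iff]
      exact case_gpt hq p j hj b
    | m i j' =>
      simp only [rule] at hr
      split_ifs at hr with h
      subst h
      have hv : false = v := by simpa using hr
      subst hv
      simp only [Bool.false_eq_true, false_iff]
      exact case_mt hq p j' j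
    | _ => simp [rule] at hr
  | h i' b' =>
    obtain ⟨hi4, hp⟩ := hy
    obtain ⟨p, rfl⟩ : ∃ p, i' = 4 * p := ⟨i' / 4, by omega⟩
    cases x with
    | g l i b =>
      simp only [rule] at hr
      split_ifs at hr with h h'
      · obtain ⟨rfl, rfl⟩ := h
        exact case_g2h hq p hp b b' v (by simpa using hr)
      · obtain ⟨rfl, rfl⟩ := h'
        have hv : true = v := by simpa using hr
        subst hv
        simp only [true_iff]
        exact case_g0h hq p hp b b'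
    | gp l i b =>
      simp only [rule] at hr
      split_ifs at hr with h
      obtain ⟨rfl, rfl⟩ := h
      exact case_gph hq p hp b b' v (by simpa using hr)
    | m i j =>
      simp only [rule] at hr
      split_ifs at hr with h
      subst h
      have hv : true = v := by simpa using hr
      subst hv
      simp only [true_iff]
      exact case_mh hq p j hp b'
    | _ => simp [rule] at hr
  | hd i' k =>
    obtain ⟨hi4, hp, hk1, hk⟩ := hy
    obtain ⟨p, rfl⟩ : ∃ p, i' = 4 * p := ⟨i' / 4, by omega⟩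
    cases x with
    | g l i b =>
      simp only [rule] at hr
      split_ifs at hr with h
      obtain ⟨rfl, rfl⟩ := h
      exact case_ghd hq p k hp (by omega) hk1 b v (by simpa using hr)
    | h i b =>
      simp only [rule] at hr
      split_ifs at hr with h
      obtain ⟨rfl, h⟩ := h
      have hv : true = v := by simpa using hr
      subst hv
      simp only [true_iff]
      exact case_hhd hq p k hp h b
    | hd i k' =>
      simp only [rule] at hr
      split_ifs at hr with h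
      obtain ⟨rfl, rfl⟩ := h
      have hv : true = v := by simpa using hr
      subst hv
      simp only [true_iff]
      exact case_hdhd hq p k' hp
    | _ => simp [rule] at hr
  | g l i b => simp [kn] at hK
  | gp l i b => simp [kn] at hK
  | m i j => simp [kn] at hK
  | bd i k => simp [kn] at hK
  | kd l k => simp [kn] at hK
  | w k => simp [kn] at hK

end Run7.h114.UD


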